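import Pool.Agent.N566.VV.Exact
import Pool.Agent.N663.VV.TwE
import Pool.Agent.N700.VV.Tree
import Pool.Agent.N561.EK.FinY
import Pool.Agent.N561.AX.HandG

/-!
# The complex volume of arborescent knots
-/

set_option autoImplicit false

namespace Pool.Agent.N566.VV

open Pool.Agent.H835R2.Knot
open Finset Filter Topology
open Pool.Agent.TH563.UV.Arb (Tree)
open Pool.Agent.TH563.CV (HasCS)

/-- `D` is a diagram of the arborescent knot of a weighted tree `s` or of its mirror image (with any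
orientation), with the conditions on `s` as in `ArbKnot`, and `V + i C` is the complex volume
`vol + i CS` of the complement of the knot, modulo `i π²`: `V` is the maximal volume of the angle
structures, and `V + i C` (for the mirror image `V - i C`) is given by Neumann's formula for the
complement of the link of `s` (`HasCS`). -/
def ComplexVolume (K : ℕ) (D : Word) (V C : ℝ) : Prop :=
  ∃ (s : Tree) (D₀ : Word),
    (Pool.Agent.N561.ArbK.AllTwisted s ∨ Pool.Agent.N561.ArbG.Fine K s) ∧ 1 ≤ s.children ∧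
    IsGreatest (arbVolumes s) V ∧ IsKnot D₀ ∧ Isotopic D₀ D ∧
    ((D₀.map plain = treeW (arbTr s) ∧ HasCS s V C) ∨
      (D₀.map plain = treeW (arbTr s.mirror) ∧ HasCS s V (-C)))

/-! ### the proofs -/

lemma ev_kash (t : Tree) (c : ℤ) (N : ℕ) :
    ev (Pool.Agent.TH563.UV.Arb.jones t) c N = Pool.Agent.TH563.UV.Arb.kashaev c 0 t N := by
  unfold ev Pool.Agent.TH563.UV.Arb.kashaev
  rw [zero_mul, zpow_zero, one_mul]
  rfl

open Pool.Agent.TH563.UV.Arb (kashaev) in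
/-- the asymptotics of the invariants, for both classes -/
theorem asym : ∃ K : ℕ, ∀ s : Tree, 1 ≤ s.children →
    (Pool.Agent.N561.ArbK.AllTwisted s ∨ Pool.Agent.N561.ArbG.Fine K s) →
    ∃ V C₀ : ℝ, IsGreatest (arbVolumes s) V ∧
      (∀ C : ℝ, HasCS s V C ↔ ∃ k : ℤ, C = C₀ + k * Real.pi ^ 2) ∧
      (∀ e : ℤ, (∀ᶠ N : ℕ in atTop, kashaev e 0 s N ≠ 0) ∧ ∃ C : ℝ, HasCS s V C ∧
        Tendsto (fun N : ℕ => kashaev e 0 s (N + 1) / kashaev e 0 s N) atTop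
          (𝓝 (Complex.exp ((V + Complex.I * C) / (2 * Real.pi))))) ∧
      ∀ e : ℤ, (∀ᶠ N : ℕ in atTop, kashaev e 0 s.mirror N ≠ 0) ∧ ∃ C : ℝ, HasCS s V C ∧
        Tendsto (fun N : ℕ => kashaev e 0 s.mirror (N + 1) / kashaev e 0 s.mirror N) atTop
          (𝓝 (Complex.exp ((V - Complex.I * C) / (2 * Real.pi)))) := by
  obtain ⟨K, hK⟩ := Pool.Agent.N561.ArbG.mainM
  refine ⟨K, fun s hc hs => ?_⟩
  rcases hs with hs | hs
  · obtain ⟨V, C₀, h2, hC₀, -, h3, h3', -, -⟩ :=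
      Pool.Agent.N561.ArbK.mainM Pool.Agent.N561.EK.f_finy s hc hs
    refine ⟨V, C₀, h2, hC₀, fun e => ?_, fun e => ?_⟩
    · obtain ⟨C, y, hC, hy, h⟩ := h3 e 0
      obtain ⟨r1, r2, -⟩ := Pool.Agent.W460.AX.rat _ _ y hy h
      exact ⟨r1, C, hC, r2⟩
    · obtain ⟨C, y, hC, hy, h⟩ := h3' e 0
      obtain ⟨r1, r2, -⟩ := Pool.Agent.W460.AX.rat _ _ y hy h
      exact ⟨r1, C, hC, r2⟩
  · obtain ⟨V, C₀, h2, hC₀, -, h3, h3', -, -⟩ := hK s hs hc
    refine ⟨V, C₀, h2, hC₀, fun e => ?_, fun e => ?_⟩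
    · obtain ⟨C, y, hC, hy, h⟩ := h3 e 0
      obtain ⟨r1, r2, -⟩ := Pool.Agent.W460.AX.rat _ _ y hy h
      exact ⟨r1, C, hC, r2⟩
    · obtain ⟨C, y, hC, hy, h⟩ := h3' e 0
      obtain ⟨r1, r2, -⟩ := Pool.Agent.W460.AX.rat _ _ y hy h
      exact ⟨r1, C, hC, r2⟩

theorem f_treee : S_TREEE := Pool.Agent.N700.VV.s_treee Pool.Agent.N663.VV.s_twe

lemma cont_arb (t : Tree) (N : ℕ) : ContinuousAt (Pool.Agent.TH563.UV.Arb.jones t N) (rt N) := by
  have hj : ∀ N, Pool.Agent.TH563.UV.Arb.jones t N =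
      Pool.Agent.TH563.UV.jt (Pool.Agent.TH563.UV.Arb.toTb t) N :=
    fun N => Pool.Agent.TH563.UV.Arb.jones_to t N
  rw [hj]
  exact Pool.Agent.TH639.J28.cnt _ _

/-- the asymptotic behaviour for diagrams -/
theorem growC_arb : ∃ K : ℕ,
    (∀ (D : Word) (V C : ℝ), ComplexVolume K D V C → GrowC D V C) ∧
    ∀ (K' : ℕ), K ≤ K' → ∀ (D : Word) (s : Tree), ArbKnot K' D s →
      ∃ V C : ℝ, IsGreatest (arbVolumes s) V ∧ ComplexVolume K' D V C := by
  obtain ⟨K, hK⟩ := asym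
  refine ⟨K, ?_, ?_⟩
  · rintro D V C ⟨s, D₀, hs, hc, hV, hk, hi, hD⟩
    obtain ⟨V', C₀, h1, h2, h3, h4⟩ := hK s hc hs
    have hVV : V' = V := h1.unique hV
    subst hVV
    rcases hD with ⟨hp, hCS⟩ | ⟨hp, hCS⟩
    · obtain ⟨c, hcol⟩ := col_arbE f_treee hp
      obtain ⟨r1, C₁, hC₁, r2⟩ := h3 c
      refine ⟨D₀, Pool.Agent.TH563.UV.Arb.jones s, c, hk, hi, hcol, fun N _ => cont_arb s N, ?_,
        C₁, ?_, ?_⟩
      · simpa only [ev_kash] using r1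
      · obtain ⟨k₁, e₁⟩ := (h2 C₁).1 hC₁
        obtain ⟨k₂, e₂⟩ := (h2 C).1 hCS
        refine ⟨k₁ - k₂, ?_⟩
        rw [e₁, e₂]
        push_cast
        ring
      · simpa only [ev_kash] using r2
    · obtain ⟨c, hcol⟩ := col_arbE f_treee hp
      obtain ⟨r1, C₁, hC₁, r2⟩ := h4 c
      refine ⟨D₀, Pool.Agent.TH563.UV.Arb.jones s.mirror, c, hk, hi, hcol,
        fun N _ => cont_arb s.mirror N, ?_, -C₁, ?_, ?_⟩
      · simpa only [ev_kash] using r1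
      · obtain ⟨k₁, e₁⟩ := (h2 C₁).1 hC₁
        obtain ⟨k₂, e₂⟩ := (h2 (-C)).1 hCS
        refine ⟨k₂ - k₁, ?_⟩
        have e₃ : C = -(C₀ + k₂ * Real.pi ^ 2) := by rw [← e₂, neg_neg]
        rw [e₁, e₃]
        push_cast
        ring
      · have e : ((V' : ℂ) + Complex.I * ((-C₁ : ℝ) : ℂ)) = V' - Complex.I * C₁ := by
          push_cast
          ring
        rw [e]
        simpa only [ev_kash] using r2
  · rintro K' hK' D s ⟨hs, hc, t, D₀, ht, hp, hk, hi⟩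
    obtain ⟨V, C₀, h1, h2, -, -⟩ := hK s hc (hs.imp id fun h' => fine_mono hK' h')
    have hC : HasCS s V C₀ := (h2 C₀).2 ⟨0, by simp⟩
    rcases ht with rfl | rfl
    · exact ⟨V, C₀, h1, t, D₀, hs, hc, h1, hk, hi, Or.inl ⟨hp, hC⟩⟩
    · exact ⟨V, -C₀, h1, s, D₀, hs, hc, h1, hk, hi, Or.inr ⟨hp, by rwa [neg_neg]⟩⟩

/-- monotonicity in `K` -/
lemma complex_mono {K K' : ℕ} (h : K ≤ K') {D : Word} {V C : ℝ} (hD : ComplexVolume K' D V C) :
    ComplexVolume K D V C := by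
  obtain ⟨s, D₀, hs, hc⟩ := hD
  exact ⟨s, D₀, hs.imp id fun h' => fine_mono h h', hc⟩

/-- separation by the complex volume -/
theorem main5 : ∃ (K : ℕ) (M : ℕ → ℕ),
    (∀ (D : Word) (S : Set ℝ), Volumes K M D S → ∃ V : ℝ, 0 < V ∧ IsGreatest S V) ∧
    (∀ (D E : Word) (S T : Set ℝ) (V W : ℝ), Volumes K M D S → Volumes K M E T →
      IsGreatest S V → IsGreatest T W → V ≠ W → Separated D E) ∧
    (∀ (D : Word) (s : Tree), ArbKnot K D s → ∃ V C : ℝ, IsGreatest (arbVolumes s) V ∧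
      ComplexVolume K D V C) ∧
    ∀ (D E : Word) (V C W C' : ℝ), ComplexVolume K D V C → ComplexVolume K E W C' →
      (V ≠ W ∨ ∀ k : ℤ, C ≠ C' + k * Real.pi ^ 2) → Separated D E := by
  obtain ⟨K₁, M, h1⟩ := cls_main
  obtain ⟨K₂, h2, h3⟩ := growC_arb
  have hvol : ∀ D S, Volumes (max K₁ K₂) M D S → Volumes K₁ M D S := by
    rintro D S (⟨s, hs, rfl⟩ | ⟨m, ts, hs, rfl⟩)
    · exact Or.inl ⟨s, ⟨hs.1.imp id fun h => fine_mono (le_max_left _ _) h, hs.2⟩, rfl⟩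
    · obtain ⟨a, b, ⟨d, hd⟩, c⟩ := hs
      exact Or.inr ⟨m, ts, ⟨a, b, ⟨d, fun p hp => ⟨adm_mono (le_max_left _ _) (hd p hp).1,
        adm_mono (le_max_left _ _) (hd p hp).2⟩⟩, c⟩, rfl⟩
  refine ⟨max K₁ K₂, M, fun D S hD => ?_, fun D E S T V W hD hE hV hW hne => ?_,
    fun D s hD => ?_, fun D E V C W C' hD hE hne => ?_⟩
  · obtain ⟨V, a, b, -⟩ := h1 D S (hvol D S hD)
    exact ⟨V, a, b⟩
  · obtain ⟨V', -, a, b⟩ := h1 D S (hvol D S hD)
    obtain ⟨W', -, a', b'⟩ := h1 E T (hvol E T hE)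
    rw [hV.unique a, hW.unique a'] at hne
    exact separated_of b b' hne
  · exact h3 _ (le_max_right _ _) D s hD
  · exact separated_ofC (h2 D V C (complex_mono (le_max_right _ _) hD))
      (h2 E W C' (complex_mono (le_max_right _ _) hE)) hne

end Pool.Agent.N566.VV
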