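import Pool.Agent.W709.QAT.Calc

/-!
# Positivity of the volume of an ideal tetrahedron
-/

set_option autoImplicit false

namespace Pool.Agent.N566.VV

open GapVol (lob)
open Real Set

lemma lob_aux {a t : ℝ} (ha : 0 < a) (h0 : 0 < t) (ht : t < (π - a) / 2) :
    HasDerivAt (fun t => lob a + lob t + lob (π - a - t))
      (Real.log (2 * Real.sin (π - a - t)) - Real.log (2 * Real.sin t)) t := by
  have h1 := Pool.Agent.W120.VC.lob_deriv h0 (by linarith : t < π)
  have h2 := Pool.Agent.W120.VC.lob_deriv (x := π - a - t) (by linarith) (by linarith)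
  have h3 : HasDerivAt (fun t : ℝ => π - a - t) (-1) t := by
    simpa using (hasDerivAt_id t).const_sub (π - a)
  have h4 := h2.comp t h3
  have h5 := (h1.const_add (lob a)).add h4
  refine h5.congr_deriv ?_
  ring

theorem tet_le {a b c : ℝ} (ha : 0 < a) (hb : 0 < b) (hc : 0 < c) (h : a + b + c = π)
    (hbc : b ≤ c) : 0 < lob a + lob b + lob c := by
  have hcont : ContinuousOn (fun t => lob a + lob t + lob (π - a - t)) (Icc 0 ((π - a) / 2)) := by
    have := GapVol.lob_cont
    fun_prop
  have hmono : StrictMonoOn (fun t => lob a + lob t + lob (π - a - t)) (Icc 0 ((π - a) / 2)) := by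
    refine strictMonoOn_of_deriv_pos (convex_Icc _ _) hcont fun t ht => ?_
    rw [interior_Icc] at ht
    obtain ⟨h1, h2⟩ := ht
    rw [(lob_aux ha h1 h2).deriv]
    have hs1 : 0 < Real.sin t := Real.sin_pos_of_pos_of_lt_pi h1 (by linarith)
    have hs2 : Real.sin t < Real.sin (π - a - t) := by
      have e := Real.sin_sub_sin (π - a - t) t
      have e1 : 0 < Real.sin ((π - a - t - t) / 2) :=
        Real.sin_pos_of_pos_of_lt_pi (by linarith) (by linarith)
      have e2 : 0 < Real.cos ((π - a - t + t) / 2) :=
        Real.cos_pos_of_mem_Ioo ⟨by linarith, by linarith⟩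
      have := mul_pos (mul_pos (by norm_num : (0 : ℝ) < 2) e1) e2
      linarith
    have := Real.log_lt_log (by positivity : 0 < 2 * Real.sin t)
      (by linarith : 2 * Real.sin t < 2 * Real.sin (π - a - t))
    linarith
  have h1 := hmono (a := 0) (b := b) ⟨le_refl _, by linarith⟩ ⟨hb.le, by linarith⟩ hb
  have h2 : π - a - 0 = π - a := sub_zero _
  have h3 : π - a - b = c := by linarith
  simp only [h2, h3, GapVol.lob_zero, Pool.Agent.W709.QAT.lob_pi_sub] at h1
  linarith

theorem tet_pos {a b c : ℝ} (ha : 0 < a) (hb : 0 < b) (hc : 0 < c) (h : a + b + c = π) :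
    0 < lob a + lob b + lob c := by
  rcases le_total b c with h1 | h1
  · exact tet_le ha hb hc h h1
  · have := tet_le ha hc hb (by linarith) h1
    linarith

end Pool.Agent.N566.VV
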