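import Pool.Agent.N566.VV.Core
import Pool.Agent.N566.VV.Pos
import Pool.Agent.N93.VV.Sch
import Pool.Agent.N11.VV.Tree
import Pool.Agent.N547.VV.Tangle
import Pool.Agent.N768.VV.Ring
import Pool.Agent.N346.VV.Tw
import Pool.Agent.N561.EK.Fin
import Pool.Agent.N561.V.ArbH
import Pool.Agent.Results.MP_759431_gt.PolyhedralSmallVertices

/-!
# Vassiliev invariants and hyperbolic volume: two classes of knots

The classes are those of `Pool.Agent.Results.MP_759431_gt.SixteenCrossings`,
`Pool.Agent.Results.MP_759431_gt.SmallVertexVolumeConjecture` (arborescent knots) and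
`Pool.Agent.Results.MP_759431_gt.PolyhedralSmallVertices` (knots on Conway's polyhedra `(2 k)*`, with
full twists).
-/

set_option autoImplicit false

namespace Pool.Agent.N566.VV

open Pool.Agent.H835R2.Knot
open Pool.Agent.H550R3.Jones (br brf Adm crossP crossN gen rep tail Gen)
open Finset Filter Topology

theorem f_tw : S_TW := Pool.Agent.N346.VV.s_tw

theorem f_ring : S_RING := Pool.Agent.N768.VV.s_ring f_tw

theorem f_tree : S_TREE := Pool.Agent.N11.VV.s_tree f_tw

/-! ### arborescent links -/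

section Arb

open Pool.Agent.TH563.UV.Arb (Tree AngleTree Angles)

/-- the same weighted tree -/
def arbTr : Tree → Tr
  | .single b a => .single b a
  | .join t c => .join (arbTr t) (arbTr c)

lemma tangle_arb (N : ℕ) (v : ℂ) (t : Tree) :
    Pool.Agent.TH563.UV.Arb.tangle N v t = tangle N v (arbTr t) := by
  induction t with
  | single b a => rfl
  | join t c ht hc =>
    simp only [Pool.Agent.TH563.UV.Arb.tangle, arbTr, tangle, ht, hc]
    rfl

lemma col_arb {D : Word} {t : Tree} (h : D.map plain = treeW (arbTr t)) :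
    Col D (Pool.Agent.TH563.UV.Arb.jones t) := by
  intro N hN
  obtain ⟨e, he⟩ := f_tree N hN (arbTr t) D h
  refine ⟨e, fun u hu σ => ?_⟩
  have ha : Adm N (u ^ 2) := ⟨pow_ne_zero 2 hu.1, fun k hk _ => hu.2 k hk⟩
  obtain ⟨a, hs⟩ := Pool.Agent.N547.VV.s_sch2 N u hu (arbTr t)
  have hj : Pool.Agent.TH563.UV.Arb.jones t N (u ^ 2) = a := by
    unfold Pool.Agent.TH563.UV.Arb.jones
    rw [dif_pos hN.pos, tangle_arb]
    have h1 := congrFun (congrFun hs ⟨0, hN.pos⟩) ⟨0, hN.pos⟩
    rw [Matrix.smul_apply, Matrix.one_apply_eq, smul_eq_mul, mul_one] at h1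
    exact h1
  rw [he _ ha σ, hj, hs]
  congr 1
  unfold qd
  rw [Finset.sum_mul]
  refine Finset.sum_congr rfl fun x _ => ?_
  rw [Matrix.smul_apply, Matrix.one_apply_eq, smul_eq_mul, mul_one]

open Pool.Agent.TH563.UV.Arb (jones kashaev root)

lemma norm_kash (e f : ℤ) (t : Tree) (N : ℕ) :
    ‖kashaev e f t N‖ = ‖jones t N (rt N)‖ := by
  have h0 : ‖root N‖ = 1 := rt_norm N
  unfold kashaev
  rw [norm_mul, norm_mul, norm_zpow, norm_zpow, norm_neg, norm_one, _root_.one_zpow, h0,
    _root_.one_zpow, one_mul, one_mul]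
  rfl

lemma avol_pos (f : Angles) (h : f.Positive) : 0 < f.vol := by
  obtain ⟨h1, h2, h3, h4, h5, h6, h7, h8⟩ := h
  have e1 := tet_pos h1 h2 h3 h4
  have e2 := tet_pos h5 h6 h7 h8
  exact add_pos e1 e2

lemma vol_nonneg (y : AngleTree) (h : Pool.Agent.TH563.UV.Arb.Below y) :
    0 ≤ Pool.Agent.TH563.UV.Arb.vol y := by
  induction y with
  | single b a => exact le_refl _
  | join t c f g ht hc =>
    obtain ⟨h1, h2, h3, h4, _, _⟩ := h
    have e1 := ht h1
    have e2 := hc h2
    have e3 := avol_pos f h3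
    have e4 := avol_pos g h4
    show 0 ≤ Pool.Agent.TH563.UV.Arb.vol t + Pool.Agent.TH563.UV.Arb.vol c + 2 * (f.vol + g.vol)
    linarith

lemma vol_pos {s : Tree} (hs : 1 ≤ s.children) (y : AngleTree) (hy : y.tree = s)
    (h : Pool.Agent.TH563.UV.Arb.IsAngle y) : 0 < Pool.Agent.TH563.UV.Arb.vol y := by
  cases y with
  | single b a =>
    rw [← hy] at hs
    exact absurd hs (by show ¬ 1 ≤ 0; omega)
  | join t c f g =>
    obtain ⟨⟨h1, h2, h3, h4, _, _⟩, _⟩ := h
    have e1 := vol_nonneg t h1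
    have e2 := vol_nonneg c h2
    have e3 := avol_pos f h3
    have e4 := avol_pos g h4
    show 0 < Pool.Agent.TH563.UV.Arb.vol t + Pool.Agent.TH563.UV.Arb.vol c + 2 * (f.vol + g.vol)
    linarith

end Arb

/-! ### rings of tangles -/

section Ring

open Pool.Agent.Results.MP_759431_gt.PolyhedralKnots (Tree AngleTree Angles jones kashaev root mirror
  IsAngle vol)

/-- the same weighted tree -/
def ringTr : Tree → Tr
  | .single b a => .single b a
  | .join t c => .join (ringTr t) (ringTr c)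

/-- the same pairs of trees -/
def ringTrs (ts : List (Tree × Tree)) : List (Tr × Tr) := ts.map fun p => (ringTr p.1, ringTr p.2)

lemma tangle_ring (N : ℕ) (v : ℂ) (t : Tree) :
    Pool.Agent.Results.MP_759431_gt.PolyhedralKnots.tangle N v t = tangle N v (ringTr t) := by
  induction t with
  | single b a => rfl
  | join t c ht hc =>
    simp only [Pool.Agent.Results.MP_759431_gt.PolyhedralKnots.tangle, ringTr, tangle, ht, hc]
    rfl

lemma jones_ring (m : ℤ) (ts : List (Tree × Tree)) {N : ℕ} (hN : 0 < N) (v : ℂ) :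
    jones m ts N v = ringM m (ringTrs ts) N v ⟨0, hN⟩ ⟨0, hN⟩ := by
  have h : (ts.map fun p =>
      Pool.Agent.Results.MP_759431_gt.PolyhedralKnots.gen
        (Pool.Agent.Results.MP_759431_gt.PolyhedralKnots.tangle N v p.1) 3 0 *
      Pool.Agent.Results.MP_759431_gt.PolyhedralKnots.gen
        (Pool.Agent.Results.MP_759431_gt.PolyhedralKnots.tangle N v p.2) 3 1).prod =
      ((ringTrs ts).map fun p => gen (tangle N v p.1) 3 0 * gen (tangle N v p.2) 3 1).prod := by
    unfold ringTrs
    rw [List.map_map]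
    congr 1
    refine List.map_congr_left fun p _ => ?_
    simp only [Function.comp_apply, tangle_ring]
    rfl
  unfold jones ringM
  rw [h, dif_pos hN]
  rfl

lemma col_ring {D : Word} {m : ℤ} {ts : List (Tree × Tree)}
    (h : D.map plain = ringW m (ringTrs ts)) : Col D (jones m ts) := by
  intro N hN
  obtain ⟨e, he⟩ := f_ring N hN m (ringTrs ts) D h
  refine ⟨e, fun u hu σ => ?_⟩
  have ha : Adm N (u ^ 2) := ⟨pow_ne_zero 2 hu.1, fun k hk _ => hu.2 k hk⟩
  obtain ⟨a, hs⟩ := Pool.Agent.N93.VV.s_sch N u hu m (ringTrs ts)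
  have hj : jones m ts N (u ^ 2) = a := by
    rw [jones_ring m ts hN.pos, hs, Matrix.smul_apply, Matrix.one_apply_eq, smul_eq_mul, mul_one]
  rw [he _ ha σ, hj, hs]
  congr 1
  unfold qd
  rw [Finset.sum_mul]
  refine Finset.sum_congr rfl fun x _ => ?_
  rw [Matrix.smul_apply, Matrix.one_apply_eq, smul_eq_mul, mul_one]

lemma norm_kash' (e f m : ℤ) (ts : List (Tree × Tree)) (N : ℕ) :
    ‖kashaev e f m ts N‖ = ‖jones m ts N (rt N)‖ := by
  have h0 : ‖root N‖ = 1 := rt_norm N
  unfold kashaev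
  rw [norm_mul, norm_mul, norm_zpow, norm_zpow, norm_neg, norm_one, _root_.one_zpow, h0,
    _root_.one_zpow, one_mul, one_mul]
  rfl

lemma avol_pos' (f : Angles) (h : f.Positive) : 0 < f.vol := by
  obtain ⟨h1, h2, h3, h4, h5, h6, h7, h8⟩ := h
  have e1 := tet_pos h1 h2 h3 h4
  have e2 := tet_pos h5 h6 h7 h8
  exact add_pos e1 e2

lemma vol_nonneg' (y : AngleTree) (h : Pool.Agent.Results.MP_759431_gt.PolyhedralKnots.Below y) :
    0 ≤ Pool.Agent.Results.MP_759431_gt.PolyhedralKnots.treeVol y := by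
  induction y with
  | single b a => exact le_refl _
  | join t c f g ht hc =>
    obtain ⟨h1, h2, h3, h4, _, _⟩ := h
    have e1 := ht h1
    have e2 := hc h2
    have e3 := avol_pos' f h3
    have e4 := avol_pos' g h4
    show 0 ≤ Pool.Agent.Results.MP_759431_gt.PolyhedralKnots.treeVol t +
      Pool.Agent.Results.MP_759431_gt.PolyhedralKnots.treeVol c + 2 * (f.vol + g.vol)
    linarith

lemma vol_pos' {m : ℤ} {ts : List (Tree × Tree)} (hne : ts ≠ []) {y : ℕ → AngleTree}
    {f g F G : ℕ → Angles} (h : IsAngle m ts y f g F G) : 0 < vol ts y f g F G := by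
  have hl : 0 < ts.length := List.length_pos_iff.2 hne
  unfold vol
  refine Finset.sum_pos (fun j hj => ?_) ⟨0, Finset.mem_range.2 (by omega)⟩
  obtain ⟨h1, h2, h3, h4⟩ := h.positive j (Finset.mem_range.1 hj)
  have e0 := vol_nonneg' (y j) (h.trees j (Finset.mem_range.1 hj)).2
  have e1 := avol_pos' _ h1
  have e2 := avol_pos' _ h2
  have e3 := avol_pos' _ h3
  have e4 := avol_pos' _ h4
  linarith

end Ring

end Pool.Agent.N566.VV
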