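import Pool.Agent.N566.VV.Defs2
import Pool.Agent.N738.VV.Ex
import Pool.Agent.N221.VV.ZS
import Pool.Agent.N432.VV.RM
import Pool.Agent.N693.VV.Inv
import Pool.Agent.N56.VV.Oka
import Pool.Agent.N81.VV.OKB
import Pool.Agent.N364.VV.Ok
import Pool.Agent.N530.VV.Diff
import Pool.Agent.N897.VV.BD
import Pool.Agent.N907.VV.Dv
import Pool.Agent.N521.VV.Vas
import Pool.Agent.H927R2.J.SanYB

/-!
# Vassiliev invariants determine the absolute values of the Kashaev invariants of odd colour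
-/

set_option autoImplicit false

namespace Pool.Agent.N566.VV

open Pool.Agent.H835R2.Knot
open Pool.Agent.H550R3.Jones (br brf Adm crossP crossN gen rep tail Gen)
open Pool.Agent.H927R2.J.SanYB (Dn dense_Dn)
open Finset Filter Topology

theorem f_inv : S_INV :=
  Pool.Agent.N693.VV.s_inv Pool.Agent.N738.VV.s_ex Pool.Agent.N221.VV.s_zs Pool.Agent.N432.VV.s_rm

theorem f_ok : S_OK := Pool.Agent.N364.VV.s_ok Pool.Agent.N56.VV.Oka.s_oka Pool.Agent.N81.VV.s_okb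

theorem f_vas : S_VAS :=
  Pool.Agent.N521.VV.s_vas f_inv f_ok Pool.Agent.N530.VV.s_diff
    (Pool.Agent.N907.VV.s_dv Pool.Agent.N897.VV.s_bd)

/-- quantum dimension -/
noncomputable def qd (N : ℕ) (v : ℂ) : ℂ := ∑ x : Fin N, v ^ ((N : ℤ) - 1 - 2 * (x : ℕ))

lemma tele (v : ℂ) (hv : v ≠ 0) (c : ℤ) (M : ℕ) :
    (v - v⁻¹) * ∑ x ∈ range M, v ^ (c - 2 * (x : ℕ)) = v ^ (c + 1) - v ^ (c + 1 - 2 * (M : ℤ)) := by
  induction M with
  | zero => simp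
  | succ M ih =>
    rw [Finset.sum_range_succ, mul_add, ih]
    have h1 : v * v ^ (c - 2 * (M : ℤ)) = v ^ (c + 1 - 2 * (M : ℤ)) := by
      rw [← zpow_one_add₀ hv]
      congr 1
      ring
    have h2 : v⁻¹ * v ^ (c - 2 * (M : ℤ)) = v ^ (c + 1 - 2 * ((M + 1 : ℕ) : ℤ)) := by
      rw [← zpow_neg_one, ← zpow_add₀ hv]
      congr 1
      push_cast
      ring
    rw [sub_mul, h1, h2]
    ring

lemma br_qd (N : ℕ) (v : ℂ) (hv : v ≠ 0) : br v 1 * qd N v = br v N := by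
  have h := tele v hv ((N : ℤ) - 1) N
  have h1 : qd N v = ∑ x ∈ range N, v ^ ((N : ℤ) - 1 - 2 * (x : ℕ)) := by
    unfold qd
    rw [Finset.sum_range]
  rw [h1]
  have h2 : br v 1 = v - v⁻¹ := by
    unfold br
    simp
  have h3 : br v N = v ^ ((N : ℤ) - 1 + 1) - v ^ ((N : ℤ) - 1 + 1 - 2 * (N : ℤ)) := by
    unfold br
    congr 2 <;> ring
  rw [h2, h3]
  exact h

lemma adm_of {N : ℕ} {v : ℂ} (h : v ∈ Dn) : Adm N v := ⟨h.1, fun k hk _ => h.2 k hk⟩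

lemma qd_ne {N : ℕ} (hN : 0 < N) {v : ℂ} (h : v ∈ Dn) : qd N v ≠ 0 := by
  intro h0
  have h1 := br_qd N v h.1
  rw [h0, mul_zero] at h1
  exact h.2 N hN h1.symm

lemma gen_of {v : ℂ} (h : v ∈ Dn) : ∃ u : ℂ, Gen u ∧ u ^ 2 = v := by
  obtain ⟨u, hu⟩ := IsAlgClosed.exists_pow_nat_eq v (n := 2) (by norm_num)
  refine ⟨u, ⟨?_, ?_⟩, hu⟩
  · rintro rfl
    apply h.1
    rw [← hu]
    norm_num
  · intro n hn
    rw [hu]
    exact h.2 n hn

/-- the diagram has the coloured Jones polynomials `g`, up to framing factors (unknot `= 1`) -/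
def Col (D : Word) (g : ℕ → ℂ → ℂ) : Prop := ∀ N, Odd N → ∃ e : ℤ, ∀ u : ℂ, Gen u →
  ∀ σ : ℕ → Fin N, val (datJ N (u ^ 2)) D σ = (u ^ 2) ^ e * (qd N (u ^ 2) * g N (u ^ 2))

/-- `exp (π i / N)` -/
noncomputable def rt (N : ℕ) : ℂ := Complex.exp (Real.pi * Complex.I / N)

lemma rt_norm (N : ℕ) : ‖rt N‖ = 1 := by
  have : rt N = Complex.exp ((Real.pi / N : ℝ) * Complex.I) := by
    unfold rt
    congr 1
    push_cast
    ring
  rw [this, Complex.norm_exp_ofReal_mul_I]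

lemma rt_ne (N : ℕ) : rt N ≠ 0 := Complex.exp_ne_zero _

/-- All rational Vassiliev invariants agree. -/
def Same (D E : Word) : Prop :=
  ∀ (n : ℕ) (w : Word → ℚ), IsInvariant w → DegreeLE n w → w D = w E

theorem norm_eq {D E : Word} (hD : IsKnot D) (hE : IsKnot E) (h : Same D E)
    {g g' : ℕ → ℂ → ℂ} (hg : Col D g) (hg' : Col E g') {N : ℕ} (hN : Odd N)
    (hc : ContinuousAt (g N) (rt N)) (hc' : ContinuousAt (g' N) (rt N)) :
    ‖g N (rt N)‖ = ‖g' N (rt N)‖ := by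
  obtain ⟨e, he⟩ := hg N hN
  obtain ⟨e', he'⟩ := hg' N hN
  have hN0 : 0 < N := hN.pos
  have key : ∀ v ∈ Dn, v ^ e * g N v - v ^ e' * g' N v = 0 := by
    intro v hv
    obtain ⟨u, hu, rfl⟩ := gen_of hv
    have h1 := he u hu fun _ => ⟨0, hN0⟩
    have h2 := he' u hu fun _ => ⟨0, hN0⟩
    have h3 := f_vas D E hD hE h N hN (u ^ 2) (adm_of hv) fun _ => ⟨0, hN0⟩
    rw [h1, h2] at h3
    have h4 := qd_ne hN0 hv
    have h5 : qd N (u ^ 2) * ((u ^ 2) ^ e * g N (u ^ 2) - (u ^ 2) ^ e' * g' N (u ^ 2)) = 0 := by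
      linear_combination h3
    exact (mul_eq_zero.1 h5).resolve_left h4
  have hcont : ContinuousAt (fun v => v ^ e * g N v - v ^ e' * g' N v) (rt N) :=
    ((continuousAt_zpow₀ _ e (Or.inl (rt_ne N))).mul hc).sub
      ((continuousAt_zpow₀ _ e' (Or.inl (rt_ne N))).mul hc')
  have hmem : rt N ∈ closure Dn := dense_Dn (rt N)
  have hne : (𝓝[Dn] (rt N)).NeBot := mem_closure_iff_nhdsWithin_neBot.1 hmem
  have ht : Tendsto (fun v => v ^ e * g N v - v ^ e' * g' N v) (𝓝[Dn] (rt N))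
      (𝓝 (rt N ^ e * g N (rt N) - rt N ^ e' * g' N (rt N))) :=
    hcont.tendsto.mono_left nhdsWithin_le_nhds
  have ht0 : Tendsto (fun v => v ^ e * g N v - v ^ e' * g' N v) (𝓝[Dn] (rt N)) (𝓝 0) := by
    refine tendsto_const_nhds.congr' ?_
    filter_upwards [self_mem_nhdsWithin] with v hv
    exact (key v hv).symm
  have h0 := tendsto_nhds_unique ht ht0
  have h1 : rt N ^ e * g N (rt N) = rt N ^ e' * g' N (rt N) := sub_eq_zero.1 h0
  have h2 := congrArg norm h1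
  rwa [norm_mul, norm_mul, norm_zpow, norm_zpow, rt_norm, one_zpow, one_zpow, one_mul,
    one_mul] at h2

theorem vol_eq {D E : Word} (hD : IsKnot D) (hE : IsKnot E) (h : Same D E)
    {g g' : ℕ → ℂ → ℂ} (hg : Col D g) (hg' : Col E g')
    (hc : ∀ N, Odd N → ContinuousAt (g N) (rt N)) (hc' : ∀ N, Odd N → ContinuousAt (g' N) (rt N))
    {V W : ℝ}
    (hV : Tendsto (fun N : ℕ => 2 * Real.pi * (Real.log ‖g N (rt N)‖ / N)) atTop (𝓝 V))
    (hW : Tendsto (fun N : ℕ => 2 * Real.pi * (Real.log ‖g' N (rt N)‖ / N)) atTop (𝓝 W)) :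
    V = W := by
  have hs : Tendsto (fun k : ℕ => 2 * k + 1) atTop atTop := by
    refine tendsto_atTop_mono (fun k => ?_) tendsto_id
    show k ≤ 2 * k + 1
    omega
  have h1 := hV.comp hs
  have h2 := hW.comp hs
  refine tendsto_nhds_unique h1 (h2.congr fun k => ?_)
  have hk : Odd (2 * k + 1) := ⟨k, rfl⟩
  simp only [Function.comp_apply]
  rw [norm_eq hD hE h hg hg' hk (hc _ hk) (hc' _ hk)]

/-! ### the unknot -/

lemma brf_ne' {N : ℕ} {v : ℂ} (h : Adm N v) {j : ℕ} (hj : j < N) : brf v j ≠ 0 := by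
  unfold brf
  refine Finset.prod_ne_zero_iff.2 fun i hi => ?_
  have h1 := h.2 (i + 1) (by omega) (by have := Finset.mem_range.1 hi; omega)
  push_cast at h1
  exact h1

lemma kap_ratio {N : ℕ} (hN : Odd N) {v : ℂ} (h : Adm N v) (x : Fin N) :
    (kap N v (Fin.rev x : Fin N))⁻¹ * kap N v x = v ^ ((N : ℤ) - 1 - 2 * (x : ℕ)) := by
  have hx := x.2
  have hr : ((Fin.rev x : Fin N) : ℕ) = N - 1 - x := by rw [Fin.val_rev]; omega
  have hb1 := brf_ne' h hx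
  have hb2 : brf v (N - 1 - (x : ℕ)) ≠ 0 := brf_ne' h (by omega)
  have hb3 : brf v (N - 1) ≠ 0 := brf_ne' h (by omega)
  have hv := h.1
  have hsub : N - 1 - (N - 1 - (x : ℕ)) = x := by omega
  have hs : (-1 : ℂ) ^ (N - 1 - (x : ℕ)) = (-1) ^ (x : ℕ) := by
    obtain ⟨k, hk⟩ := hN
    have h1 : (-1 : ℂ) ^ (N - 1 - (x : ℕ)) * (-1) ^ (x : ℕ) = 1 := by
      rw [← pow_add]
      have h2 : N - 1 - (x : ℕ) + x = 2 * k := by omega
      rw [h2, pow_mul]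
      norm_num
    have h3 : (-1 : ℂ) ^ (x : ℕ) * (-1) ^ (x : ℕ) = 1 := by
      rw [← mul_pow]
      norm_num
    calc (-1 : ℂ) ^ (N - 1 - (x : ℕ)) = (-1 : ℂ) ^ (N - 1 - (x : ℕ)) *
          ((-1 : ℂ) ^ (x : ℕ) * (-1) ^ (x : ℕ)) := by rw [h3, mul_one]
      _ = _ := by rw [← mul_assoc, h1, one_mul]
  have hcast : ((N - 1 - (x : ℕ) : ℕ) : ℤ) = (N : ℤ) - 1 - (x : ℕ) := by omega
  have hv1 : v ^ (((N : ℤ) - 1 - (x : ℕ)) * ((N : ℤ) - 2 - ((N : ℤ) - 1 - (x : ℕ)))) ≠ 0 :=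
    zpow_ne_zero _ hv
  have hz : v ^ (((x : ℕ) : ℤ) * ((N : ℤ) - 2 - (x : ℕ))) =
      v ^ (((N : ℤ) - 1 - (x : ℕ)) * ((N : ℤ) - 2 - ((N : ℤ) - 1 - (x : ℕ)))) *
        v ^ ((N : ℤ) - 1 - 2 * (x : ℕ)) := by
    rw [← zpow_add₀ hv]
    congr 1
    ring
  have hm : (-1 : ℂ) ^ (x : ℕ) ≠ 0 := pow_ne_zero _ (by norm_num)
  unfold kap
  rw [hr, hsub, hs, hcast, hz]
  field_simp

theorem col_circle : Col circle (fun _ _ => 1) := by
  intro N hN
  refine ⟨0, fun u hu σ => ?_⟩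
  have ha : Adm N (u ^ 2) := ⟨pow_ne_zero 2 hu.1, fun k hk _ => hu.2 k hk⟩
  rw [zpow_zero, one_mul, mul_one]
  show Bl (datJ N (u ^ 2)) 0 (Dl (datJ N (u ^ 2)) 0 fun _ => 1) σ = _
  unfold Bl Dl qd
  refine Finset.sum_congr rfl fun x _ => ?_
  have h1 : insS 0 x ((datJ N (u ^ 2)).rev x) σ 0 = x := rfl
  have h2 : insS 0 x ((datJ N (u ^ 2)).rev x) σ (0 + 1) = (datJ N (u ^ 2)).rev x := rfl
  rw [h1, h2, if_pos rfl, mul_one]
  exact kap_ratio hN ha x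

end Pool.Agent.N566.VV
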