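import Pool.Agent.H835R2.Knot.Defs
import Pool.Agent.H550R3.Jones.Stmts2

/-!
# The coloured Jones polynomial of sliced diagrams: definitions and exact statements of the parts

`Pool.Agent.H835R2.Knot.Defs`: sliced oriented diagrams `Word`, `Front`, `Fits`, `run`, `Closed`,
`IsKnot`, `Move`, `Step`, `Isotopic`, `switchAt`, `crossingSet`, `IsInvariant`, `DegreeLE`.

State model: states are functions `σ : ℕ → ι` (labels of the strands at a horizontal line); the
operator of a piece turns a function of the states below the piece into a function of the states above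
it (compare `Pool.Agent.H838R2.SL.T6Inv`, the case of two labels).
-/

set_option autoImplicit false

namespace Pool.Agent.N566.VV

open Pool.Agent.H835R2.Knot
open Pool.Agent.H550R3.Jones (br brf Adm crossP crossN gen rep tail Gen)
open Finset Filter Topology Asymptotics

/-! ### state models -/

section
variable {ι : Type} [Fintype ι] [DecidableEq ι]

/-- The data of a state model: `rev` the involution of the labels, `c x` the weight of a maximum with
the labels `x, rev x`, `d x` that of a minimum with the labels `x, rev x`; `P`, `Q` the matrices of the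
pieces `pos`, `neg` (first index: the labels above, second index: the labels below), `k` and `k'` the
framing factors of positive and negative crossings. -/
structure Dat (ι : Type) where
  rev : ι → ι
  c : ι → ℂ
  d : ι → ℂ
  P : Matrix (ι × ι) (ι × ι) ℂ
  Q : Matrix (ι × ι) (ι × ι) ℂ
  k : ℂ
  k' : ℂ

/-- functions of states -/
abbrev F (ι : Type) : Type := (ℕ → ι) → ℂ

/-- insert the labels `x`, `y` at the places `i`, `i + 1` -/
def insS (i : ℕ) (x y : ι) (σ : ℕ → ι) : ℕ → ι :=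
  fun p => if p < i then σ p else if p = i then x else if p = i + 1 then y else σ (p - 2)

/-- delete the places `i`, `i + 1` -/
def delS (i : ℕ) (σ : ℕ → ι) : ℕ → ι := fun p => if p < i then σ p else σ (p + 2)

/-- change the labels at the places `i`, `i + 1` -/
def updS (i : ℕ) (x y : ι) (σ : ℕ → ι) : ℕ → ι :=
  fun p => if p = i then x else if p = i + 1 then y else σ p

/-- maximum at `i` -/
def Bl (T : Dat ι) (i : ℕ) (f : F ι) : F ι := fun σ => ∑ x, T.c x * f (insS i x (T.rev x) σ)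

/-- minimum at `i` -/
def Dl (T : Dat ι) (i : ℕ) (f : F ι) : F ι :=
  fun σ => if σ (i + 1) = T.rev (σ i) then T.d (σ i) * f (delS i σ) else 0

/-- the matrix `A` at the places `i`, `i + 1` -/
def Xl (A : Matrix (ι × ι) (ι × ι) ℂ) (i : ℕ) (f : F ι) : F ι :=
  fun σ => ∑ p : ι × ι, A (σ i, σ (i + 1)) p * f (updS i p.1 p.2 σ)

/-- the operator of a piece, `d` are the directions of the strands above it -/
def opP (T : Dat ι) : Piece → (ℕ → Bool) → F ι → F ι
  | .birth i _, _, f => Bl T i f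
  | .death i, _, f => Dl T i f
  | .pos i, d, f => (if d i = d (i + 1) then T.k else T.k') • Xl T.P i f
  | .neg i, d, f => (if d i = d (i + 1) then T.k' else T.k) • Xl T.Q i f

/-- the operator of a word, `A` are the strands above it (only `A.dir` matters) -/
def opD (T : Dat ι) : Word → Front → F ι → F ι
  | [], _, f => f
  | p :: w, A, f => opP T p A.dir (opD T w (p.act A) f)

/-- the value of a closed diagram -/
def val (T : Dat ι) (D : Word) (σ : ℕ → ι) : ℂ := opD T D Front.empty (fun _ => 1) σ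

/-- The local identities. -/
structure Dat.Ok (T : Dat ι) : Prop where
  rr : ∀ x, T.rev (T.rev x) = x
  zz : ∀ x, T.c x * T.d (T.rev x) = 1
  kk : T.k * T.k' = 1
  pq : T.P * T.Q = 1
  qp : T.Q * T.P = 1
  yb : ∀ l i k i' k' l' : ι,
    ∑ a, ∑ b, ∑ m, T.P (l, i) (a, m) * T.P (m, k) (b, l') * T.P (a, b) (i', k') =
      ∑ a, ∑ b, ∑ m, T.P (i, k) (a, b) * T.P (l, a) (i', m) * T.P (m, b) (k', l')
  sb1 : ∀ a x y z, T.c x * T.P (T.rev x, a) (y, z) = T.c (T.rev z) * T.Q (a, T.rev z) (x, y)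
  sb2 : ∀ a x y z, T.c x * T.Q (T.rev x, a) (y, z) = T.c (T.rev z) * T.P (a, T.rev z) (x, y)
  sd1 : ∀ a b e x, T.d a * T.P (b, e) (T.rev a, x) = T.d (T.rev e) * T.Q (a, b) (x, T.rev e)
  sd2 : ∀ a b e x, T.d a * T.Q (b, e) (T.rev a, x) = T.d (T.rev e) * T.P (a, b) (x, T.rev e)
  fb1 : ∀ y z, ∑ x, T.c x * T.P (x, T.rev x) (y, z) = if z = T.rev y then T.k * T.c y else 0
  fb2 : ∀ y z, ∑ x, T.c x * T.Q (x, T.rev x) (y, z) = if z = T.rev y then T.k' * T.c y else 0
  fd1 : ∀ y z, ∑ x, T.P (y, z) (x, T.rev x) * T.d x = if z = T.rev y then T.k * T.d y else 0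
  fd2 : ∀ y z, ∑ x, T.Q (y, z) (x, T.rev x) * T.d x = if z = T.rev y then T.k' * T.d y else 0

end

/-! ### the statements on state models -/

/-- exchange of heights -/
def S_EX : Prop := ∀ (ι : Type) [Fintype ι] [DecidableEq ι] (T : Dat ι) (p q : Piece),
  p.index + p.ins ≤ q.index → ∀ (A : Front) (f : F ι),
    opD T [p, q.moved (q.index + p.outs - p.ins)] A f = opD T [q, p] A f

/-- zigzags and sliding crossings through maxima and minima -/
def S_ZS : Prop := ∀ (ι : Type) [Fintype ι] [DecidableEq ι] (T : Dat ι), T.Ok →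
  ∀ (i : ℕ) (b : Bool) (A : Front) (f : F ι),
    (A.dir i = b → opD T [.birth i b, .death (i + 1)] A f = f) ∧
    (A.dir i = !b → opD T [.birth (i + 1) b, .death i] A f = f) ∧
    opD T [.birth i b, .pos (i + 1)] A f = opD T [.birth (i + 1) b, .neg i] A f ∧
    opD T [.birth i b, .neg (i + 1)] A f = opD T [.birth (i + 1) b, .pos i] A f ∧
    (A.dir (i + 2) = !A.dir i →
      opD T [.pos (i + 1), .death i] A f = opD T [.neg i, .death (i + 1)] A f ∧
      opD T [.neg (i + 1), .death i] A f = opD T [.pos i, .death (i + 1)] A f)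

/-- the Reidemeister moves -/
def S_RM : Prop := ∀ (ι : Type) [Fintype ι] [DecidableEq ι] (T : Dat ι), T.Ok →
  ∀ (i : ℕ) (b : Bool) (A : Front) (f : F ι),
    opD T [.birth i b, .pos i] A f = opD T [.birth i (!b)] A f ∧
    opD T [.birth i b, .neg i] A f = opD T [.birth i (!b)] A f ∧
    (A.dir (i + 1) = !A.dir i →
      opD T [.pos i, .death i] A f = opD T [.death i] A f ∧
      opD T [.neg i, .death i] A f = opD T [.death i] A f) ∧
    opD T [.pos i, .neg i] A f = f ∧ opD T [.neg i, .pos i] A f = f ∧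
    opD T [.pos i, .pos (i + 1), .pos i] A f = opD T [.pos (i + 1), .pos i, .pos (i + 1)] A f

/-- the value is an invariant -/
def S_INV : Prop := ∀ (ι : Type) [Fintype ι] [DecidableEq ι] (T : Dat ι), T.Ok →
  ∀ D E : Word, Isotopic D E → ∀ σ, val T D σ = val T E σ

/-! ### the coloured Jones polynomial -/

/-- the coefficients of the invariant vector `∑ kap j e_j ⊗ e_{N-1-j}` -/
noncomputable def kap (N : ℕ) (v : ℂ) (j : ℕ) : ℂ :=
  (-1) ^ j * (brf v j * brf v (N - 1 - j) / brf v (N - 1)) * v ^ ((j : ℤ) * ((N : ℤ) - 2 - j))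

/-- the framing exponent `(N² - 1) / 2` -/
def fr (N : ℕ) : ℤ := ((N : ℤ) ^ 2 - 1) / 2

/-- the state model of the coloured Jones polynomial -/
noncomputable def datJ (N : ℕ) (v : ℂ) : Dat (Fin N) where
  rev := Fin.rev
  c x := (kap N v (Fin.rev x : Fin N))⁻¹
  d x := kap N v x
  P := v ^ fr N • crossP N v
  Q := v ^ (-fr N) • crossN N v
  k := v ^ (-fr N)
  k' := v ^ fr N

/-- identities of the coloured Jones polynomial: everything but slides and curls -/
def S_OKA : Prop := ∀ (N : ℕ) (v : ℂ), Odd N → Adm N v →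
  (∀ x : Fin N, Fin.rev (Fin.rev x) = x) ∧
  (∀ x, (datJ N v).c x * (datJ N v).d (Fin.rev x) = 1) ∧ (datJ N v).k * (datJ N v).k' = 1 ∧
  (datJ N v).P * (datJ N v).Q = 1 ∧ (datJ N v).Q * (datJ N v).P = 1 ∧
  (∀ l i k i' k' l' : Fin N,
    ∑ a, ∑ b, ∑ m, (datJ N v).P (l, i) (a, m) * (datJ N v).P (m, k) (b, l') *
        (datJ N v).P (a, b) (i', k') =
      ∑ a, ∑ b, ∑ m, (datJ N v).P (i, k) (a, b) * (datJ N v).P (l, a) (i', m) *
        (datJ N v).P (m, b) (k', l'))

/-- slides -/
def S_OKB : Prop := ∀ (N : ℕ) (v : ℂ), Odd N → Adm N v →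
  (∀ a x y z : Fin N, (datJ N v).c x * (datJ N v).P (Fin.rev x, a) (y, z) =
    (datJ N v).c (Fin.rev z) * (datJ N v).Q (a, Fin.rev z) (x, y)) ∧
  (∀ a x y z : Fin N, (datJ N v).c x * (datJ N v).Q (Fin.rev x, a) (y, z) =
    (datJ N v).c (Fin.rev z) * (datJ N v).P (a, Fin.rev z) (x, y)) ∧
  (∀ a b e x : Fin N, (datJ N v).d a * (datJ N v).P (b, e) (Fin.rev a, x) =
    (datJ N v).d (Fin.rev e) * (datJ N v).Q (a, b) (x, Fin.rev e)) ∧
  (∀ a b e x : Fin N, (datJ N v).d a * (datJ N v).Q (b, e) (Fin.rev a, x) =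
    (datJ N v).d (Fin.rev e) * (datJ N v).P (a, b) (x, Fin.rev e))

/-- the data of the coloured Jones polynomial satisfy all local identities -/
def S_OK : Prop := ∀ (N : ℕ) (v : ℂ), Odd N → Adm N v → (datJ N v).Ok

/-! ### analytic part -/

/-- analyticity of the value off the zeros of `{1}, …, {N-1}` -/
def S_DIFF : Prop := ∀ N : ℕ, Odd N → ∀ (D : Word) (σ : ℕ → Fin N),
  DifferentiableOn ℂ (fun v => val (datJ N v) D σ) {v | Adm N v}

/-- the local weights near `v = 1` (`v = e^h`): bounded, and the two crossings differ by `O(h)` -/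
def S_BD : Prop := ∀ N : ℕ, Odd N →
  (∀ x, (fun h : ℂ => (datJ N (Complex.exp h)).c x) =O[𝓝[≠] 0] fun _ => (1 : ℂ)) ∧
  (∀ x, (fun h : ℂ => (datJ N (Complex.exp h)).d x) =O[𝓝[≠] 0] fun _ => (1 : ℂ)) ∧
  (∀ p q, (fun h : ℂ => ((datJ N (Complex.exp h)).k • (datJ N (Complex.exp h)).P) p q)
    =O[𝓝[≠] 0] fun _ => (1 : ℂ)) ∧
  (∀ p q, (fun h : ℂ => ((datJ N (Complex.exp h)).k' • (datJ N (Complex.exp h)).P) p q)
    =O[𝓝[≠] 0] fun _ => (1 : ℂ)) ∧
  (∀ p q, (fun h : ℂ => ((datJ N (Complex.exp h)).k • (datJ N (Complex.exp h)).Q) p q)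
    =O[𝓝[≠] 0] fun _ => (1 : ℂ)) ∧
  (∀ p q, (fun h : ℂ => ((datJ N (Complex.exp h)).k' • (datJ N (Complex.exp h)).Q) p q)
    =O[𝓝[≠] 0] fun _ => (1 : ℂ)) ∧
  (∀ p q, (fun h : ℂ => ((datJ N (Complex.exp h)).k • (datJ N (Complex.exp h)).P) p q -
    ((datJ N (Complex.exp h)).k' • (datJ N (Complex.exp h)).Q) p q) =O[𝓝[≠] 0] fun h => h) ∧
  (∀ p q, (fun h : ℂ => ((datJ N (Complex.exp h)).k' • (datJ N (Complex.exp h)).P) p q -
    ((datJ N (Complex.exp h)).k • (datJ N (Complex.exp h)).Q) p q) =O[𝓝[≠] 0] fun h => h)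

/-- alternating sums are `O(h^n)` -/
def S_DV : Prop := ∀ N : ℕ, Odd N → ∀ (D : Word) (S : Finset ℕ), S ⊆ crossingSet D →
  ∀ σ : ℕ → Fin N, (fun h : ℂ => ∑ T ∈ S.powerset, (-1 : ℂ) ^ T.card *
    val (datJ N (Complex.exp h)) (switchAt T D) σ) =O[𝓝[≠] 0] fun h => h ^ S.card

/-- rational Vassiliev invariants determine the values -/
def S_VAS : Prop := ∀ D E : Word, IsKnot D → IsKnot E →
  (∀ (n : ℕ) (w : Word → ℚ), IsInvariant w → DegreeLE n w → w D = w E) →
  ∀ N : ℕ, Odd N → ∀ v : ℂ, Adm N v → ∀ σ, val (datJ N v) D σ = val (datJ N v) E σ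

/-! ### the tangles of weighted trees, and rings of them -/

/-- weighted rooted planar trees with crossing circles -/
inductive Tr
  | single (b : Bool) (a : ℤ)
  | join (t c : Tr)

/-- the coefficients of the cup -/
noncomputable def cup (N : ℕ) (v : ℂ) (j : ℕ) : ℂ :=
  (-1) ^ j * (brf v j * brf v (N - 1 - j)) * v ^ ((j : ℤ) * ((N : ℤ) - 2 - j))

/-- rotation by a quarter turn -/
noncomputable def rot (N : ℕ) (v : ℂ) (A : Matrix (Fin N × Fin N) (Fin N × Fin N) ℂ) :
    Matrix (Fin N × Fin N) (Fin N × Fin N) ℂ :=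
  fun p q => cup N v p.1 / cup N v q.2 * A (p.2, Fin.rev q.2) (Fin.rev p.1, q.1)

/-- on the first two of three factors -/
def on12 {N : ℕ} (A : Matrix (Fin N × Fin N) (Fin N × Fin N) ℂ) :
    Matrix (Fin N × Fin N × Fin N) (Fin N × Fin N × Fin N) ℂ :=
  fun p q => if p.2.2 = q.2.2 then A (p.1, p.2.1) (q.1, q.2.1) else 0

/-- on the last two of three factors -/
def on23 {N : ℕ} (A : Matrix (Fin N × Fin N) (Fin N × Fin N) ℂ) :
    Matrix (Fin N × Fin N × Fin N) (Fin N × Fin N × Fin N) ℂ :=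
  fun p q => if p.1 = q.1 then A p.2 q.2 else 0

/-- crossing circle -/
noncomputable def belt (N : ℕ) (v : ℂ) : Matrix (Fin N × Fin N) (Fin N × Fin N) ℂ :=
  fun p q => ∑ x : Fin N, v ^ ((N : ℤ) - 1 - 2 * (x : ℕ)) *
    (on23 (crossP N v) * (on12 (crossP N v) * (on12 (crossP N v) * on23 (crossP N v))))
      (p.1, (p.2, x)) (q.1, (q.2, x))

/-- vertex -/
noncomputable def vertex (N : ℕ) (v : ℂ) (b : Bool) (a : ℤ) :
    Matrix (Fin N × Fin N) (Fin N × Fin N) ℂ :=
  (if b then belt N v else 1) * (if 0 ≤ a then crossP N v ^ a.toNat else crossN N v ^ (-a).toNat)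

/-- the operator of the tangle of a tree; the first factor is on top -/
noncomputable def tangle (N : ℕ) (v : ℂ) : Tr → Matrix (Fin N × Fin N) (Fin N × Fin N) ℂ
  | .single b a => vertex N v b a
  | .join t c => tangle N v t * rot N v (tangle N v c)

/-- `m` full twists -/
def fullTwists (m : ℤ) : List (ℕ × Bool) :=
  (List.replicate m.natAbs [(0, decide (0 ≤ m)), (1, decide (0 ≤ m)), (0, decide (0 ≤ m)),
    (0, decide (0 ≤ m)), (1, decide (0 ≤ m)), (0, decide (0 ≤ m))]).flatten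

/-- the operator on the open strand of a ring of tangles -/
noncomputable def ringM (m : ℤ) (ts : List (Tr × Tr)) (N : ℕ) (v : ℂ) : Matrix (Fin N) (Fin N) ℂ :=
  tail (fun x : Fin N => v ^ ((N : ℤ) - 1 - 2 * (x : ℕ))) 2
    (rep (crossP N v) (crossN N v) 3 (fullTwists m) *
      (ts.map fun p => gen (tangle N v p.1) 3 0 * gen (tangle N v p.2) 3 1).prod)

/-! the same tangles as words (maxima are drawn as `birth _ true`, see `plain`) -/

/-- forget the directions at the maxima -/
def plain : Piece → Piece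
  | .birth i _ => .birth i true
  | p => p

/-- `a` crossings of the strands `i`, `i + 1` -/
def crossW (i : ℕ) (a : ℤ) : Word :=
  if 0 ≤ a then List.replicate a.toNat (.pos i) else List.replicate (-a).toNat (.neg i)

/-- a crossing circle around the strands `i`, `i + 1` -/
def beltW (i : ℕ) : Word :=
  [.birth (i + 2) true, .pos (i + 1), .pos i, .pos i, .pos (i + 1), .death (i + 2)]

/-- the tangle of a tree on the strands `i`, `i + 1` -/
def tangleW : ℕ → Tr → Word
  | i, .single b a => (if b then beltW i else []) ++ crossW i a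
  | i, .join t c => tangleW i t ++ (.birth (i + 2) true :: tangleW (i + 1) c ++ [.death i])

/-- a letter of a braid word -/
def letW (g : ℕ × Bool) : Piece := if g.2 then .pos g.1 else .neg g.1

/-- the closure of `(s_1 s_2 s_1)^{2 m} T_1 U_1 ⋯ T_k U_k` -/
def ringW (m : ℤ) (ts : List (Tr × Tr)) : Word :=
  [.birth 0 true, .birth 1 true, .birth 2 true] ++ ((fullTwists m).map letW ++
    (ts.map fun p => tangleW 0 p.1 ++ tangleW 1 p.2).flatten) ++ [.death 2, .death 1, .death 0]

/-- the operator of the tangle of a tree -/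
def S_TW : Prop := ∀ (N : ℕ), Odd N → ∀ (t : Tr) (i : ℕ) (D : Word) (A : Front),
  D.map plain = tangleW i t → ∃ e : ℤ, ∀ v : ℂ, Adm N v → ∀ f : F (Fin N),
    opD (datJ N v) D A f = v ^ e • Xl (tangle N v t) i f

/-- the value of a ring -/
def S_RING : Prop := ∀ (N : ℕ), Odd N → ∀ (m : ℤ) (ts : List (Tr × Tr)) (D : Word),
  D.map plain = ringW m ts → ∃ e : ℤ, ∀ v : ℂ, Adm N v → ∀ σ,
    val (datJ N v) D σ = v ^ e * ∑ x : Fin N, v ^ ((N : ℤ) - 1 - 2 * (x : ℕ)) * ringM m ts N v x x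

/-- the operator on the open strand is a scalar -/
def S_SCH : Prop := ∀ (N : ℕ) (u : ℂ), Gen u → ∀ (m : ℤ) (ts : List (Tr × Tr)),
  ∃ a : ℂ, ringM m ts N (u ^ 2) = a • (1 : Matrix (Fin N) (Fin N) ℂ)

end Pool.Agent.N566.VV
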