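import Pool.Agent.N566.VV.Defs

/-!
# Closed diagrams of arborescent links, statements
-/

set_option autoImplicit false

namespace Pool.Agent.N566.VV

open Pool.Agent.H835R2.Knot
open Pool.Agent.H550R3.Jones (br brf Adm crossP crossN gen rep tail Gen)
open Finset Filter Topology Asymptotics

/-- the partial quantum trace of the tangle of a tree -/
noncomputable def treeM (t : Tr) (N : ℕ) (v : ℂ) : Matrix (Fin N) (Fin N) ℂ :=
  fun i j => ∑ x : Fin N, v ^ ((N : ℤ) - 1 - 2 * (x : ℕ)) * tangle N v t (i, x) (j, x)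

/-- the closure of the tangle of a tree -/
def treeW (t : Tr) : Word := [.birth 0 true, .birth 1 true] ++ tangleW 0 t ++ [.death 1, .death 0]

/-- the value of the closure of the tangle of a tree -/
def S_TREE : Prop := ∀ (N : ℕ), Odd N → ∀ (t : Tr) (D : Word),
  D.map plain = treeW t → ∃ e : ℤ, ∀ v : ℂ, Adm N v → ∀ σ,
    val (datJ N v) D σ = v ^ e * ∑ x : Fin N, v ^ ((N : ℤ) - 1 - 2 * (x : ℕ)) * treeM t N v x x

/-- the operator on the open strand is a scalar -/
def S_SCH2 : Prop := ∀ (N : ℕ) (u : ℂ), Gen u → ∀ t : Tr,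
  ∃ a : ℂ, treeM t N (u ^ 2) = a • (1 : Matrix (Fin N) (Fin N) ℂ)

end Pool.Agent.N566.VV
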