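import Pool.Agent.N566.VV.Defs2

/-!
# Closures of (1,1)-tangles, statements

The diagrams are those of `Pool.Agent.Results.MP_759431_gt.TwistRegionBound` (copies of the
definitions, lists of pieces from bottom to top).
-/

set_option autoImplicit false

namespace Pool.Agent.N566.VV

open Pool.Agent.H835R2.Knot
open Pool.Agent.H550R3.Jones (br brf Adm crossP crossN gen rep tail Gen)
open Finset Filter Topology

/-- the pieces of a diagram, from bottom to top; `cup i` is a minimum, `cap i` a maximum, `tw i s m`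
are `m` crossings -/
inductive Pc
  | cup (i : ℕ)
  | cap (i : ℕ)
  | tw (i : ℕ) (s : Bool) (m : ℕ)

/-- the number of strands above a piece with `n` strands below it -/
def Pc.strands : Pc → ℕ → Option ℕ
  | .cup i, n => if i ≤ n then some (n + 2) else none
  | .cap i, n => if i + 2 ≤ n then some (n - 2) else none
  | .tw i _ _, n => if i + 2 ≤ n then some n else none

/-- one strand below, one strand above -/
def Tang (T : List Pc) : Prop := T.foldl (fun n P => n.bind P.strands) (some 1) = some 1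

/-- the operator of a piece on functions of lists -/
noncomputable def Pc.act (N : ℕ) (v : ℂ) : Pc → (List (Fin N) → ℂ) → List (Fin N) → ℂ
  | .cup i, f => fun s => match s.drop i with
      | a :: b :: r => (if (a : ℕ) + b = N - 1 then kap N v a else 0) * f (s.take i ++ r)
      | _ => 0
  | .cap i, f => fun s => ∑ p : Fin N × Fin N,
      (if (p.1 : ℕ) + p.2 = N - 1 then (kap N v p.2)⁻¹ else 0) *
        f (s.take i ++ p.1 :: p.2 :: s.drop i)
  | .tw i σ m, f => fun s => match s.drop i with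
      | a :: b :: r => ∑ p : Fin N × Fin N,
          ((if σ then crossP N v else crossN N v) ^ m) (a, b) p * f (s.take i ++ p.1 :: p.2 :: r)
      | _ => 0

/-- the operator of a diagram on functions of lists -/
noncomputable def runL (N : ℕ) (v : ℂ) (T : List Pc) (f : List (Fin N) → ℂ) : List (Fin N) → ℂ :=
  T.foldl (fun g P => P.act N v g) f

/-- the operator of a piece on functions of states -/
noncomputable def Pc.fn (N : ℕ) (v : ℂ) : Pc → F (Fin N) → F (Fin N)
  | .cup i, f => Dl (datJ N v) i f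
  | .cap i, f => Bl (datJ N v) i f
  | .tw i s m, f => Xl ((if s then crossP N v else crossN N v) ^ m) i f

/-- the operator of a diagram on functions of states -/
noncomputable def runF (N : ℕ) (v : ℂ) (T : List Pc) (f : F (Fin N)) : F (Fin N) :=
  T.foldl (fun g P => P.fn N v g) f

/-- a piece as a word (from top to bottom; maxima are drawn as `birth _ true`, see `plain`) -/
def pcW : Pc → Word
  | .cup i => [.death i]
  | .cap i => [.birth i true]
  | .tw i s m => List.replicate m (if s then .pos i else .neg i)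

/-- the closure of the diagram of a (1,1)-tangle: the closing strand is on the right -/
def closeW (T : List Pc) : Word := .birth 0 true :: ((T.reverse.map pcW).flatten ++ [.death 0])

/-- the generator `E` of `U_q(sl_2)` on the first `n` strands,
`∑_k 1 ⊗ ⋯ ⊗ 1 ⊗ E ⊗ K ⊗ ⋯ ⊗ K` -/
noncomputable def Ea (N : ℕ) (v : ℂ) (n : ℕ) (f : F (Fin N)) : F (Fin N) := fun σ =>
  ∑ k ∈ range n, (∏ j ∈ Ico (k + 1) n, v ^ ((N : ℤ) - 1 - 2 * (σ j : ℕ))) *
    (if h : (σ k : ℕ) + 1 < N then
      br v ((N : ℤ) - ((σ k : ℕ) + 1)) * f (Function.update σ k ⟨(σ k : ℕ) + 1, h⟩) else 0)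

/-! ### statements -/

/-- framing factors -/
def S_FRM : Prop := ∀ N : ℕ, Odd N → ∀ (T : List Pc) (D : Word), D.map plain = closeW T →
  ∃ e : ℤ, ∀ v : ℂ, Adm N v → ∀ σ, val (datJ N v) D σ =
    v ^ e * Bl (datJ N v) 0 (runF N v T (Dl (datJ N v) 0 fun _ => 1)) σ

/-- from lists to functions (the strand number `n` is a spectator) -/
def S_LST : Prop := ∀ (N : ℕ) (v : ℂ) (P : Pc) (n n' : ℕ), P.strands n = some n' →
  ∀ (f : F (Fin N)) (G : Fin N → List (Fin N) → ℂ),
    (∀ σ, f σ = G (σ n) ((List.range n).map σ)) →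
    ∀ σ, P.fn N v f σ = P.act N v (G (σ n')) ((List.range n').map σ)

/-- the value of the closure of a (1,1)-tangle -/
def S_OPEN : Prop := ∀ N : ℕ, Odd N → ∀ (T : List Pc) (D : Word), Tang T → D.map plain = closeW T →
  ∃ e : ℤ, ∀ v : ℂ, Adm N v → ∀ σ, val (datJ N v) D σ =
    v ^ e * ∑ x : Fin N, v ^ ((N : ℤ) - 1 - 2 * (x : ℕ)) *
      runL N v T (fun s => if s = [x] then 1 else 0) [x]

/-- `E` commutes with the crossings -/
def S_EX2 : Prop := ∀ (N : ℕ) (u : ℂ), Gen u → ∀ (s : Bool) (i n : ℕ), i + 2 ≤ n →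
  ∀ f : F (Fin N), Xl (if s then crossP N (u ^ 2) else crossN N (u ^ 2)) i (Ea N (u ^ 2) n f) =
    Ea N (u ^ 2) n (Xl (if s then crossP N (u ^ 2) else crossN N (u ^ 2)) i f)

/-- `E` commutes with the maxima -/
def S_EB : Prop := ∀ (N : ℕ) (v : ℂ), Adm N v → ∀ i n : ℕ, i ≤ n → ∀ f : F (Fin N),
  Bl (datJ N v) i (Ea N v (n + 2) f) = Ea N v n (Bl (datJ N v) i f)

/-- `E` commutes with the minima -/
def S_ED : Prop := ∀ (N : ℕ) (v : ℂ), Adm N v → ∀ i n : ℕ, i ≤ n → ∀ f : F (Fin N),
  Dl (datJ N v) i (Ea N v n f) = Ea N v (n + 2) (Dl (datJ N v) i f)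

/-- the diagonal entries of the operator of a (1,1)-tangle agree -/
def S_SCH3 : Prop := ∀ (N : ℕ) (u : ℂ), Gen u → ∀ T : List Pc, Tang T → ∀ (h : 0 < N) (x : Fin N),
  runL N (u ^ 2) T (fun s => if s = [x] then 1 else 0) [x] =
    runL N (u ^ 2) T (fun s => if s = [⟨0, h⟩] then 1 else 0) [⟨0, h⟩]

end Pool.Agent.N566.VV
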