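import Pool.Agent.N566.VV.Defs2

/-!
# Values of the diagrams with the exact framing factors: statements
-/

set_option autoImplicit false

namespace Pool.Agent.N566.VV

open Pool.Agent.H835R2.Knot
open Pool.Agent.H550R3.Jones (br brf Adm crossP crossN gen rep tail Gen)
open Finset Filter Topology

/-- VV/E1: `S_TW` with the framing factor `v ^ (c (N² - 1))`, `c` independent of `N` -/
def S_TWE : Prop := ∀ (t : Tr) (i : ℕ) (D : Word) (A : Front), D.map plain = tangleW i t →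
  ∃ c : ℤ, ∀ N : ℕ, Odd N → ∀ v : ℂ, Adm N v → ∀ f : F (Fin N),
    opD (datJ N v) D A f = v ^ (c * ((N : ℤ) ^ 2 - 1)) • Xl (tangle N v t) i f

/-- VV/E2: `S_RING` with the framing factor -/
def S_RINGE : Prop := ∀ (m : ℤ) (ts : List (Tr × Tr)) (D : Word), D.map plain = ringW m ts →
  ∃ c : ℤ, ∀ N : ℕ, Odd N → ∀ v : ℂ, Adm N v → ∀ σ,
    val (datJ N v) D σ = v ^ (c * ((N : ℤ) ^ 2 - 1)) *
      ∑ x : Fin N, v ^ ((N : ℤ) - 1 - 2 * (x : ℕ)) * ringM m ts N v x x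

/-- VV/E3: `S_TREE` with the framing factor -/
def S_TREEE : Prop := ∀ (t : Tr) (D : Word), D.map plain = treeW t →
  ∃ c : ℤ, ∀ N : ℕ, Odd N → ∀ v : ℂ, Adm N v → ∀ σ,
    val (datJ N v) D σ = v ^ (c * ((N : ℤ) ^ 2 - 1)) *
      ∑ x : Fin N, v ^ ((N : ℤ) - 1 - 2 * (x : ℕ)) * treeM t N v x x

end Pool.Agent.N566.VV
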