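import Pool.Agent.N566.VV.Knots
import Pool.Agent.N566.VV.Stm4

/-!
# The exact values of the coloured Jones polynomials at the roots of unity
-/

set_option autoImplicit false

namespace Pool.Agent.N566.VV

open Pool.Agent.H835R2.Knot
open Pool.Agent.H550R3.Jones (br brf Adm crossP crossN gen rep tail Gen)
open Pool.Agent.H927R2.J.SanYB (Dn dense_Dn)
open Finset Filter Topology

/-- the diagram has the coloured Jones polynomials `g` (unknot `= 1`), with framing factors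
`v ^ (c (N² - 1))` -/
def ColE (D : Word) (g : ℕ → ℂ → ℂ) (c : ℤ) : Prop := ∀ N : ℕ, Odd N → ∀ u : ℂ, Gen u →
  ∀ σ : ℕ → Fin N, val (datJ N (u ^ 2)) D σ =
    (u ^ 2) ^ (c * ((N : ℤ) ^ 2 - 1)) * (qd N (u ^ 2) * g N (u ^ 2))

/-- the value at the root of unity -/
noncomputable def ev (g : ℕ → ℂ → ℂ) (c : ℤ) (N : ℕ) : ℂ :=
  rt N ^ (c * ((N : ℤ) ^ 2 - 1)) * g N (rt N)

theorem exact_eq {D E : Word} (hD : IsKnot D) (hE : IsKnot E) (h : Same D E)
    {g g' : ℕ → ℂ → ℂ} {c c' : ℤ} (hg : ColE D g c) (hg' : ColE E g' c') {N : ℕ} (hN : Odd N)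
    (hc : ContinuousAt (g N) (rt N)) (hc' : ContinuousAt (g' N) (rt N)) :
    ev g c N = ev g' c' N := by
  have he := hg N hN
  have he' := hg' N hN
  unfold ev
  generalize c * ((N : ℤ) ^ 2 - 1) = e at he ⊢
  generalize c' * ((N : ℤ) ^ 2 - 1) = e' at he' ⊢
  have hN0 : 0 < N := hN.pos
  have key : ∀ v ∈ Dn, v ^ e * g N v - v ^ e' * g' N v = 0 := by
    intro v hv
    obtain ⟨u, hu, rfl⟩ := gen_of hv
    have h1 := he u hu fun _ => ⟨0, hN0⟩
    have h2 := he' u hu fun _ => ⟨0, hN0⟩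
    have h3 := f_vas D E hD hE h N hN (u ^ 2) (adm_of hv) fun _ => ⟨0, hN0⟩
    rw [h1, h2] at h3
    have h4 := qd_ne hN0 hv
    have h5 : qd N (u ^ 2) * ((u ^ 2) ^ e * g N (u ^ 2) - (u ^ 2) ^ e' * g' N (u ^ 2)) = 0 := by
      linear_combination h3
    exact (mul_eq_zero.1 h5).resolve_left h4
  have hcont : ContinuousAt (fun v => v ^ e * g N v - v ^ e' * g' N v) (rt N) :=
    ((continuousAt_zpow₀ _ e (Or.inl (rt_ne N))).mul hc).sub
      ((continuousAt_zpow₀ _ e' (Or.inl (rt_ne N))).mul hc')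
  have hmem : rt N ∈ closure Dn := dense_Dn (rt N)
  have hne : (𝓝[Dn] (rt N)).NeBot := mem_closure_iff_nhdsWithin_neBot.1 hmem
  have ht : Tendsto (fun v => v ^ e * g N v - v ^ e' * g' N v) (𝓝[Dn] (rt N))
      (𝓝 (rt N ^ e * g N (rt N) - rt N ^ e' * g' N (rt N))) :=
    hcont.tendsto.mono_left nhdsWithin_le_nhds
  have ht0 : Tendsto (fun v => v ^ e * g N v - v ^ e' * g' N v) (𝓝[Dn] (rt N)) (𝓝 0) := by
    refine tendsto_const_nhds.congr' ?_
    filter_upwards [self_mem_nhdsWithin] with v hv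
    exact (key v hv).symm
  exact sub_eq_zero.1 (tendsto_nhds_unique ht ht0)

/-- limits of quotients along the odd numbers -/
theorem lim_sq {a b : ℕ → ℂ} {z w : ℂ} (ha : ∀ᶠ N in atTop, a N ≠ 0) (hb : ∀ᶠ N in atTop, b N ≠ 0)
    (hz : Tendsto (fun N => a (N + 1) / a N) atTop (𝓝 z))
    (hw : Tendsto (fun N => b (N + 1) / b N) atTop (𝓝 w)) (hab : ∀ N, Odd N → a N = b N) :
    z ^ 2 = w ^ 2 := by
  have hs : Tendsto (fun k : ℕ => 2 * k + 1) atTop atTop := by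
    refine tendsto_atTop_mono (fun k => ?_) tendsto_id
    show k ≤ 2 * k + 1
    omega
  have key : ∀ {a : ℕ → ℂ} {z : ℂ}, (∀ᶠ N in atTop, a N ≠ 0) →
      Tendsto (fun N => a (N + 1) / a N) atTop (𝓝 z) →
      Tendsto (fun k : ℕ => a (2 * k + 1 + 2) / a (2 * k + 1)) atTop (𝓝 (z ^ 2)) := by
    intro a z ha hz
    have h1 := hz.comp hs
    have h2 := (hz.comp (tendsto_add_atTop_nat 1)).comp hs
    rw [pow_two]
    refine (h2.mul h1).congr' ?_
    have h3 : ∀ᶠ k : ℕ in atTop, a (2 * k + 1 + 1) ≠ 0 :=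
      hs.eventually ((tendsto_add_atTop_nat 1).eventually ha)
    filter_upwards [h3] with k hk
    simp only [Function.comp_apply]
    rw [div_mul_div_cancel₀ hk]
  refine tendsto_nhds_unique (key ha hz) ((key hb hw).congr fun k => ?_)
  rw [hab _ ⟨k, rfl⟩, hab _ ⟨k + 1, by ring⟩]

/-- the asymptotic behaviour of the values; `V + i C` is the complex volume -/
def GrowC (D : Word) (V C : ℝ) : Prop := ∃ (D₀ : Word) (g : ℕ → ℂ → ℂ) (c : ℤ), IsKnot D₀ ∧
  Isotopic D₀ D ∧ ColE D₀ g c ∧ (∀ N, Odd N → ContinuousAt (g N) (rt N)) ∧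
  (∀ᶠ N in atTop, ev g c N ≠ 0) ∧
  ∃ C₁ : ℝ, (∃ k : ℤ, C₁ = C + k * Real.pi ^ 2) ∧
    Tendsto (fun N => ev g c (N + 1) / ev g c N) atTop
      (𝓝 (Complex.exp ((V + Complex.I * C₁) / (2 * Real.pi))))

theorem exp_sq {V C W C' : ℝ}
    (h : Complex.exp ((V + Complex.I * C) / (2 * Real.pi)) ^ 2 =
      Complex.exp ((W + Complex.I * C') / (2 * Real.pi)) ^ 2) :
    V = W ∧ ∃ k : ℤ, C = C' + k * (2 * Real.pi ^ 2) := by
  have hp : (Real.pi : ℂ) ≠ 0 := by exact_mod_cast Real.pi_ne_zero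
  have hpr : Real.pi ≠ 0 := Real.pi_ne_zero
  rw [← Complex.exp_nat_mul, ← Complex.exp_nat_mul, Complex.exp_eq_exp_iff_exists_int] at h
  obtain ⟨n, hn⟩ := h
  have h1 : (V : ℂ) + Complex.I * C = W + Complex.I * C' + n * (2 * Real.pi ^ 2) * Complex.I := by
    push_cast at hn
    field_simp at hn
    linear_combination hn
  have hre := congrArg Complex.re h1
  have him := congrArg Complex.im h1
  simp at hre him
  refine ⟨?_, n, ?_⟩
  · have e : ((Real.pi : ℂ) ^ 2).im = 0 := by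
      rw [← Complex.ofReal_pow]; exact Complex.ofReal_im _
    simpa [e] using hre
  · have e : ((Real.pi : ℂ) ^ 2).re = Real.pi ^ 2 := by
      rw [← Complex.ofReal_pow]; exact Complex.ofReal_re _
    simpa [e] using him

theorem separated_ofC {D E : Word} {V C W C' : ℝ} (hD : GrowC D V C) (hE : GrowC E W C')
    (h : V ≠ W ∨ ∀ k : ℤ, C ≠ C' + k * Real.pi ^ 2) : Separated D E := by
  by_contra hn
  obtain ⟨D₀, g, c, h1, h2, h3, h4, h5, C₁, ⟨k₁, hk₁⟩, h6⟩ := hD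
  obtain ⟨E₀, g', c', k1, k2, k3, k4, k5, C₂, ⟨k₂, hk₂⟩, k6⟩ := hE
  have hs : Same D₀ E₀ := by
    intro n w hw hd
    by_contra hne
    refine hn ⟨n, w, hw, hd, ?_⟩
    rw [← hw D₀ D h1 h2, ← hw E₀ E k1 k2]
    exact hne
  have h7 := lim_sq h5 k5 h6 k6 fun N hN => exact_eq h1 k1 hs h3 k3 hN (h4 N hN) (k4 N hN)
  obtain ⟨a, n, b⟩ := exp_sq h7
  rcases h with h | h
  · exact h a
  · apply h (k₂ - k₁ + 2 * n)
    rw [hk₁, hk₂] at b
    push_cast
    linarith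

/-- the values of the diagrams of arborescent knots -/
theorem col_arbE (hT : S_TREEE) {D : Word} {t : Pool.Agent.TH563.UV.Arb.Tree}
    (h : D.map plain = treeW (arbTr t)) : ∃ c : ℤ, ColE D (Pool.Agent.TH563.UV.Arb.jones t) c := by
  obtain ⟨c, he⟩ := hT (arbTr t) D h
  refine ⟨c, fun N hN u hu σ => ?_⟩
  have ha : Adm N (u ^ 2) := ⟨pow_ne_zero 2 hu.1, fun k hk _ => hu.2 k hk⟩
  obtain ⟨a, hs⟩ := Pool.Agent.N547.VV.s_sch2 N u hu (arbTr t)
  have hj : Pool.Agent.TH563.UV.Arb.jones t N (u ^ 2) = a := by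
    unfold Pool.Agent.TH563.UV.Arb.jones
    rw [dif_pos hN.pos, tangle_arb]
    have h1 := congrFun (congrFun hs ⟨0, hN.pos⟩) ⟨0, hN.pos⟩
    rw [Matrix.smul_apply, Matrix.one_apply_eq, smul_eq_mul, mul_one] at h1
    exact h1
  rw [he _ hN _ ha σ, hj, hs]
  congr 1
  unfold qd
  rw [Finset.sum_mul]
  refine Finset.sum_congr rfl fun x _ => ?_
  rw [Matrix.smul_apply, Matrix.one_apply_eq, smul_eq_mul, mul_one]

end Pool.Agent.N566.VV
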