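import Pool.Agent.N566.VV.Sep
import Pool.Agent.N402.VV.Frm
import Pool.Agent.N342.VV.Lst
import Pool.Agent.N348.VV.Open
import Pool.Agent.N283.VV.ED
import Pool.Agent.N618.VV.Sch3
import Pool.Agent.N628.VV.Ex2
import Pool.Agent.N415.VV.EB

/-!
# Separation from all knots with few twist regions: the parts together
-/

set_option autoImplicit false

namespace Pool.Agent.N566.VV

open Pool.Agent.H835R2.Knot
open Finset Filter Topology

theorem f_open : S_OPEN := Pool.Agent.N348.VV.s_open Pool.Agent.N402.VV.s_frm Pool.Agent.N342.VV.s_lst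

theorem f_sch3 : S_SCH3 := Pool.Agent.N618.VV.s_sch3 Pool.Agent.N342.VV.s_lst
  Pool.Agent.N628.VV.Ex2.s_ex2 Pool.Agent.N415.VV.s_eb Pool.Agent.N283.VV.s_ed

open Pool.Agent.Results.MP_759431_gt.TwistRegionBound (regions rate v3 v8)
open Pool.Agent.TH563.UV.Arb (Tree)
open Pool.Agent.TH563.UB.Arb (edges octahedron Heavy)

/-- separation from all knots with few twist regions, in terms of the volume -/
theorem main2 : ∃ (K : ℕ) (M : ℕ → ℕ), ∀ (D : Word) (S : Set ℝ) (V : ℝ), Volumes K M D S →
    IsGreatest S V →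
    (∀ T E, TwistDiagram T E → ((regions T).map rate).sum < V → Separated D E) ∧
    ∀ t E, ArbDiagram t E → 2 * octahedron * edges t < V → Separated D E := by
  obtain ⟨K, M, h⟩ := cls_main
  refine ⟨K, M, fun D S V hD hV => ?_⟩
  obtain ⟨V', -, h2, h3⟩ := h D S hD
  rw [← hV.unique h2] at h3
  exact ⟨fun T E hE hlt => separated_lt h3 (growLe_twist f_open f_sch3 hE) hlt,
    fun t E hE hlt => separated_lt h3 (growLe_arb hE) hlt⟩

lemma v3_pos : 0 < v3 := by
  have h1 : v3 = 3 * GapVol.lob (Real.pi / 3) := rfl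
  have h2 := tet_pos (a := Real.pi / 3) (b := Real.pi / 3) (c := Real.pi / 3)
    (by positivity) (by positivity) (by positivity) (by ring)
  rw [h1]
  linarith

lemma rate_sum_le (l : List ℕ) : (l.map rate).sum ≤ 10 * v3 * l.length := by
  induction l with
  | nil => simp
  | cons a l ih =>
    rw [List.map_cons, List.sum_cons, List.length_cons]
    have h : rate a ≤ 10 * v3 := min_le_right _ _
    push_cast
    linarith

lemma exists_eps (m : ℕ) (hm : 1 ≤ m) : ∃ ε : ℝ, 0 < ε ∧ ε * m < 2 * octahedron ∧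
    ∀ k : ℕ, 10 * v3 * k < 2 * octahedron * m → 10 * v3 * k < (2 * octahedron - ε) * m := by
  have hv := v3_pos
  have ho := oct_pos
  have hm' : (0 : ℝ) < m := by exact_mod_cast hm
  have hfin : {k : ℕ | 10 * v3 * k < 2 * octahedron * m}.Finite := by
    refine (Set.finite_Iic ⌈2 * octahedron * m / (10 * v3)⌉₊).subset fun k hk => ?_
    have hk' : 10 * v3 * (k : ℝ) < 2 * octahedron * m := hk
    have h1 : (k : ℝ) < 2 * octahedron * m / (10 * v3) := by
      rw [lt_div_iff₀ (by positivity)]
      linarith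
    have h2 := Nat.le_ceil (2 * octahedron * m / (10 * v3))
    exact Nat.cast_le (α := ℝ).1 (h1.le.trans h2)
  obtain ⟨k₀, hk₀, hmax⟩ := hfin.toFinset.exists_max_image (fun k => k)
    ⟨0, by
      rw [Set.Finite.mem_toFinset]
      show 10 * v3 * ((0 : ℕ) : ℝ) < 2 * octahedron * m
      rw [Nat.cast_zero, mul_zero]
      positivity⟩
  rw [Set.Finite.mem_toFinset] at hk₀
  have hk₁ : 10 * v3 * (k₀ : ℝ) < 2 * octahedron * m := hk₀
  set ε₁ : ℝ := (2 * octahedron * m - 10 * v3 * k₀) / (2 * m) with hε₁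
  have hp1 : 0 < ε₁ := by
    rw [hε₁]
    apply div_pos <;> linarith
  refine ⟨min ε₁ (octahedron / m), lt_min hp1 (by positivity), ?_, fun k hk => ?_⟩
  · have h1 : min ε₁ (octahedron / m) * m ≤ octahedron / m * m :=
      mul_le_mul_of_nonneg_right (min_le_right _ _) hm'.le
    have h2 : octahedron / m * m = octahedron := div_mul_cancel₀ _ hm'.ne'
    linarith
  · have h1 : k ≤ k₀ := hmax k (by rw [Set.Finite.mem_toFinset]; exact hk)
    have h2 : (k : ℝ) ≤ k₀ := by exact_mod_cast h1
    have h3 : min ε₁ (octahedron / m) * m ≤ ε₁ * m :=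
      mul_le_mul_of_nonneg_right (min_le_left _ _) hm'.le
    have h4 : ε₁ * m = (2 * octahedron * m - 10 * v3 * k₀) / 2 := by
      rw [hε₁]
      field_simp
    have h5 : 10 * v3 * (k : ℝ) ≤ 10 * v3 * k₀ := by gcongr
    linarith

/-- separation of the knots of heavy trees from all knots with few twist regions -/
theorem main3 : ∀ m : ℕ, 1 ≤ m → ∃ M : ℕ, ∀ (s : Tree) (D : Word), edges s = m → Heavy M s →
    ArbDiagram s D →
    (∀ t E, ArbDiagram t E → edges t < m → Separated D E) ∧
    ∀ T E, TwistDiagram T E → 10 * v3 * (regions T).length < 2 * v8 * m → Separated D E := by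
  intro m hm
  obtain ⟨ε, hε, h1, h2⟩ := exists_eps m hm
  obtain ⟨M, hM⟩ := grow_heavy ε hε
  refine ⟨M, fun s D hs hh hD => ?_⟩
  have hc : 1 ≤ s.children := by
    cases s with
    | single b a =>
      exact absurd hs (by show (0 : ℕ) ≠ m; omega)
    | join t c =>
      show 1 ≤ t.children + 1
      omega
  obtain ⟨V, hV, hg⟩ := hM s hc hh
  have ho := oct_pos
  rw [hs] at hV
  refine ⟨fun t E hE hlt => separated_lt (hg D hD) (growLe_arb hE) ?_,
    fun T E hE hlt => separated_lt (hg D hD) (growLe_twist f_open f_sch3 hE) ?_⟩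
  · have h3 : (edges t : ℝ) ≤ m - 1 := by
      have : edges t + 1 ≤ m := hlt
      have h4 : ((edges t + 1 : ℕ) : ℝ) ≤ m := by exact_mod_cast this
      push_cast at h4
      linarith
    have h4 : 2 * octahedron * (edges t : ℝ) ≤ 2 * octahedron * (m - 1) := by gcongr
    nlinarith
  · have hv : v8 = octahedron := rfl
    rw [hv] at hlt
    exact (rate_sum_le (regions T)).trans_lt ((h2 _ hlt).trans_le hV)

end Pool.Agent.N566.VV
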