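import Pool.Agent.N566.VV.LowV

/-!
# Separation from all knots with few twist regions, with explicit constants
-/

set_option autoImplicit false

namespace Pool.Agent.N566.VV

open Pool.Agent.H835R2.Knot
open Finset Filter Topology
open Pool.Agent.Results.MP_759431_gt.TwistRegionBound (regions rate v3 v8)
open Pool.Agent.TH563.UV.Arb (Tree)
open Pool.Agent.TH563.UB.Arb (edges octahedron Heavy)
open Pool.Agent.N561.ArbK (AllTwisted)

/-- the growth and an explicit lower bound of the volume -/
theorem grow_low (h2 : S_N2) {s : Tree} (hs : AllTwisted s) (hc : 1 ≤ s.children) :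
    ∃ V : ℝ, IsGreatest (arbVolumes s) V ∧ (2 * octahedron - 21 / 125) * edges s ≤ V ∧
      ∀ D : Word, ArbDiagram s D → Grow D V := by
  obtain ⟨V, h1, h3⟩ := Pool.Agent.N561.ArbK.main Pool.Agent.N561.EK.f_fin s hc hs
  refine ⟨V, h1, Low.vol_low h2 s hs hc h1, ?_⟩
  rintro D ⟨D₀, hp, hk, hi⟩
  exact grow_arb (K := 0) ⟨Or.inl hs, hc, s, D₀, Or.inl rfl, hp, hk, hi⟩ h3

/-- separation with explicit constants -/
theorem main4 (h1 : S_N1) (h2 : S_N2) (s : Tree) (D : Word) (hs : AllTwisted s)
    (hc : 1 ≤ s.children) (hD : ArbDiagram s D) :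
    (∀ t E, ArbDiagram t E → 100 * edges t ≤ 97 * edges s → Separated D E) ∧
    ∀ T E, TwistDiagram T E → 10 * (regions T).length ≤ 7 * edges s → Separated D E := by
  obtain ⟨V, -, hV, hg⟩ := grow_low h2 hs hc
  have hm : 1 ≤ edges s := by
    cases s with
    | single b a => exact absurd hc (by show ¬ 1 ≤ 0; omega)
    | join t c =>
      show 1 ≤ edges t + edges c + 1
      omega
  have hm' : (1 : ℝ) ≤ edges s := by exact_mod_cast hm
  have eo : octahedron = 8 * GapVol.lob (Real.pi / 4) := rfl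
  have ev : v3 = 3 * GapVol.lob (Real.pi / 3) := rfl
  obtain ⟨n1, n2⟩ := h1
  refine ⟨fun t E hE hlt => separated_lt (hg D hD) (growLe_arb hE) ?_,
    fun T E hE hlt => separated_lt (hg D hD) (growLe_twist f_open f_sch3 hE) ?_⟩
  · have h3 : (100 : ℝ) * edges t ≤ 97 * edges s := by exact_mod_cast hlt
    refine lt_of_lt_of_le ?_ hV
    rw [eo]
    have k1 := mul_le_mul_of_nonneg_left h3 (by linarith : 0 ≤ GapVol.lob (Real.pi / 4))
    have k2 := mul_nonneg (sub_nonneg.2 n1) (by linarith : (0 : ℝ) ≤ edges s)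
    linarith
  · have h3 : (10 : ℝ) * (regions T).length ≤ 7 * edges s := by exact_mod_cast hlt
    refine (rate_sum_le (regions T)).trans_lt (lt_of_lt_of_le ?_ hV)
    rw [eo, ev]
    have h4 : 0 < GapVol.lob (Real.pi / 3) := by
      have := v3_pos
      rw [ev] at this
      linarith
    have k1 := mul_le_mul_of_nonneg_left h3 h4.le
    have k2 := mul_nonneg (sub_nonneg.2 n2) (by linarith : (0 : ℝ) ≤ edges s)
    linarith

end Pool.Agent.N566.VV
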