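import Pool.Agent.N566.VV.Cls

/-!
# Two classes of knots: the definitions of the hand-ins

Diagrams are sliced oriented diagrams (`Pool.Agent.H835R2.Knot.Defs`: `Word`, `IsKnot`, `Isotopic`,
`IsInvariant`, `DegreeLE`).  The classes of knots are those of
`Pool.Agent.Results.MP_759431_gt.SixteenCrossings`,
`Pool.Agent.Results.MP_759431_gt.SmallVertexVolumeConjecture` (arborescent knots; trees and angle
structures in `Pool.Agent.TH563.UV.Arb`) and
`Pool.Agent.Results.MP_759431_gt.PolyhedralSmallVertices` (knots on Conway's polyhedra `(2 k)*`, with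
full twists; trees and angle structures in
`Pool.Agent.Results.MP_759431_gt.PolyhedralKnots`).  The diagrams `treeW`, `ringW` are defined in
`Pool.Agent.N566.VV.Defs` and `Pool.Agent.N566.VV.Defs2`.
-/

set_option autoImplicit false

namespace Pool.Agent.N566.VV

open Pool.Agent.H835R2.Knot
open Finset Filter Topology

/-- `D` is a diagram of the arborescent knot of the weighted tree `s`, which has at least one edge, or
of its mirror image (with any orientation).  Every vertex of the tree has weight at least `16` in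
absolute value or at least `32` neighbours (`AllTwisted`), or: every vertex is large
(`K² ≤ n² + a²`, `n` neighbours, weight `a`) or small, and of two neighbouring vertices at least one
is large (`Fine`). -/
def ArbKnot (K : ℕ) (D : Word) (s : Pool.Agent.TH563.UV.Arb.Tree) : Prop :=
  (Pool.Agent.N561.ArbK.AllTwisted s ∨ Pool.Agent.N561.ArbG.Fine K s) ∧ 1 ≤ s.children ∧
    ∃ (t : Pool.Agent.TH563.UV.Arb.Tree) (D₀ : Word), (t = s ∨ t = s.mirror) ∧
      D₀.map plain = treeW (arbTr t) ∧ IsKnot D₀ ∧ Isotopic D₀ D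

/-- `D` is a diagram of a knot which is the closure of `(s_1 s_2 s_1)^{2 m} T_1 U_1 ⋯ T_k U_k`, with
the tangles of `2 k ≥ 2` weighted trees, `m ≥ 0`, `(k, m) ≠ (1, 0)`, or of its mirror image (with any
orientation).  For some `d` the roots of the trees have at most `d` children and weights of absolute
value at least `M d`, and every other vertex is large or small, of two neighbouring vertices at least
one being large (`Admissible`). -/
def RingKnot (K : ℕ) (M : ℕ → ℕ) (D : Word) (m : ℕ)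
    (ts : List (Pool.Agent.Results.MP_759431_gt.PolyhedralKnots.Tree ×
      Pool.Agent.Results.MP_759431_gt.PolyhedralKnots.Tree)) : Prop :=
  ts ≠ [] ∧ ¬ (ts.length = 1 ∧ m = 0) ∧
    (∃ d : ℕ, ∀ p ∈ ts,
      Pool.Agent.Results.MP_759431_gt.PolyhedralSmallVertices.Admissible K d (M d) p.1 ∧
      Pool.Agent.Results.MP_759431_gt.PolyhedralSmallVertices.Admissible K d (M d) p.2) ∧
    ∃ D₀ : Word, (D₀.map plain = ringW m (ringTrs ts) ∨ D₀.map plain = ringW (-(m : ℤ))
        (ringTrs (Pool.Agent.Results.MP_759431_gt.PolyhedralKnots.mirror ts))) ∧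
      IsKnot D₀ ∧ Isotopic D₀ D

/-- The volumes of the angle structures of the complement of the arborescent link of `s`. -/
def arbVolumes (s : Pool.Agent.TH563.UV.Arb.Tree) : Set ℝ :=
  {W : ℝ | ∃ y : Pool.Agent.TH563.UV.Arb.AngleTree, y.tree = s ∧
    Pool.Agent.TH563.UV.Arb.IsAngle y ∧ Pool.Agent.TH563.UV.Arb.vol y = W}

/-- The volumes of the angle structures of the complement of the closure of
`(s_1 s_2 s_1)^{2 m} T_1 U_1 ⋯ T_k U_k`. -/
def ringVolumes (m : ℕ) (ts : List (Pool.Agent.Results.MP_759431_gt.PolyhedralKnots.Tree ×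
    Pool.Agent.Results.MP_759431_gt.PolyhedralKnots.Tree)) : Set ℝ :=
  {W : ℝ | ∃ (y : ℕ → Pool.Agent.Results.MP_759431_gt.PolyhedralKnots.AngleTree)
      (f g F G : ℕ → Pool.Agent.Results.MP_759431_gt.PolyhedralKnots.Angles),
    Pool.Agent.Results.MP_759431_gt.PolyhedralKnots.IsAngle m ts y f g F G ∧
    Pool.Agent.Results.MP_759431_gt.PolyhedralKnots.vol ts y f g F G = W}

/-- `D` is a diagram of a knot of one of the two classes, and `S` is the set of the volumes of the
angle structures of its complement.  By Casson, Rivin, Hodgson and Thurston the hyperbolic volume of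
the knot complement is the maximum of `S`, if this maximum exists. -/
def Volumes (K : ℕ) (M : ℕ → ℕ) (D : Word) (S : Set ℝ) : Prop :=
  (∃ s, ArbKnot K D s ∧ S = arbVolumes s) ∨ ∃ m ts, RingKnot K M D m ts ∧ S = ringVolumes m ts

/-- `D` and `E` are separated by a Vassiliev invariant with rational values. -/
def Separated (D E : Word) : Prop :=
  ∃ (n : ℕ) (w : Word → ℚ), IsInvariant w ∧ DegreeLE n w ∧ w D ≠ w E

/-! Examples of the diagrams (not part of the results): the figure-eight knot as the link of the tree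
with two vertices of weights `2`, `-2`, and as the closure of `(s_1 s_2^{-1})^2`; the trefoil. -/

example : ([.birth 0 true, .birth 1 false, .pos 0, .pos 0, .birth 2 true, .neg 1, .neg 1, .death 0,
    .death 1, .death 0] : Word).map plain =
      treeW (arbTr (.join (.single false 2) (.single false (-2)))) ∧
    IsKnot [.birth 0 true, .birth 1 false, .pos 0, .pos 0, .birth 2 true, .neg 1, .neg 1, .death 0,
      .death 1, .death 0] := by decide

example : ([.birth 0 true, .birth 1 true, .birth 2 true, .pos 0, .neg 1, .pos 0, .neg 1, .death 2,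
    .death 1, .death 0] : Word).map plain =
      ringW 0 (ringTrs [(.single false 1, .single false (-1)), (.single false 1, .single false (-1))]) ∧
    IsKnot [.birth 0 true, .birth 1 true, .birth 2 true, .pos 0, .neg 1, .pos 0, .neg 1, .death 2,
      .death 1, .death 0] := by decide

example : (rightTrefoil : Word).map plain = treeW (arbTr (.single false 3)) := by decide

/-! ### the proofs -/

/-- the growth of the coloured Jones polynomials at the roots of unity, for a diagram -/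
def Grow (D : Word) (V : ℝ) : Prop := ∃ (D₀ : Word) (g : ℕ → ℂ → ℂ), IsKnot D₀ ∧ Isotopic D₀ D ∧
  Col D₀ g ∧ (∀ N, Odd N → ContinuousAt (g N) (rt N)) ∧
  Tendsto (fun N : ℕ => 2 * Real.pi * (Real.log ‖g N (rt N)‖ / N)) atTop (𝓝 V)

theorem separated_of {D E : Word} {V W : ℝ} (hD : Grow D V) (hE : Grow E W) (h : V ≠ W) :
    Separated D E := by
  by_contra hn
  obtain ⟨D₀, g, h1, h2, h3, h4, h5⟩ := hD
  obtain ⟨E₀, g', k1, k2, k3, k4, k5⟩ := hE
  refine h (vol_eq h1 k1 ?_ h3 k3 h4 k4 h5 k5)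
  intro n w hw hd
  by_contra hne
  refine hn ⟨n, w, hw, hd, ?_⟩
  rw [← hw D₀ D h1 h2, ← hw E₀ E k1 k2]
  exact hne

theorem grow_circle : Grow circle 0 := by
  refine ⟨circle, fun _ _ => 1, by decide, Relation.EqvGen.refl _, col_circle,
    fun _ _ => continuousAt_const, ?_⟩
  simp

lemma grow_arb {K : ℕ} {D : Word} {s : Pool.Agent.TH563.UV.Arb.Tree} (h : ArbKnot K D s)
    {V : ℝ} (hV : ∀ t : Pool.Agent.TH563.UV.Arb.Tree, (t = s ∨ t = s.mirror) →
      (∀ N : ℕ, ContinuousAt (Pool.Agent.TH563.UV.Arb.jones t N)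
        (Pool.Agent.TH563.UV.Arb.root N)) ∧
      ∀ e f : ℤ, Tendsto (fun N : ℕ => 2 * Real.pi *
        (Real.log ‖Pool.Agent.TH563.UV.Arb.kashaev e f t N‖ / N)) atTop (𝓝 V)) : Grow D V := by
  obtain ⟨_, _, t, D₀, ht, hp, hk, hi⟩ := h
  obtain ⟨hc, hl⟩ := hV t ht
  refine ⟨D₀, Pool.Agent.TH563.UV.Arb.jones t, hk, hi, col_arb hp, fun N _ => hc N, ?_⟩
  refine (hl 0 0).congr fun N => ?_
  rw [norm_kash]

theorem arb_main : ∃ K : ℕ, ∀ s : Pool.Agent.TH563.UV.Arb.Tree, 1 ≤ s.children →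
    (Pool.Agent.N561.ArbK.AllTwisted s ∨ Pool.Agent.N561.ArbG.Fine K s) →
    ∃ V : ℝ, 0 < V ∧ IsGreatest (arbVolumes s) V ∧ ∀ D : Word, ArbKnot K D s → Grow D V := by
  obtain ⟨K, hK⟩ := Pool.Agent.N561.ArbG.main
  refine ⟨K, fun s hc hs => ?_⟩
  have hpos : ∀ V, IsGreatest (arbVolumes s) V → 0 < V := by
    rintro V ⟨⟨y, h1, h2, rfl⟩, _⟩
    exact vol_pos hc y h1 h2
  rcases hs with hs | hs
  · obtain ⟨V, h1, h2⟩ := Pool.Agent.N561.ArbK.main Pool.Agent.N561.EK.f_fin s hc hs
    exact ⟨V, hpos V h1, h1, fun D hD => grow_arb hD h2⟩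
  · obtain ⟨V, h1, h2⟩ := hK s hc hs
    exact ⟨V, hpos V h1, h1, fun D hD => grow_arb hD h2⟩

open Pool.Agent.Results.MP_759431_gt.PolyhedralKnots (jones kashaev root toTs jones_to volume_eq
  mirror_ts) in
theorem ring_main : ∃ (K : ℕ) (M : ℕ → ℕ), ∀ (m : ℕ)
    (ts : List (Pool.Agent.Results.MP_759431_gt.PolyhedralKnots.Tree ×
      Pool.Agent.Results.MP_759431_gt.PolyhedralKnots.Tree)), ts ≠ [] →
    ¬ (ts.length = 1 ∧ m = 0) →
    (∃ d : ℕ, ∀ p ∈ ts,
      Pool.Agent.Results.MP_759431_gt.PolyhedralSmallVertices.Admissible K d (M d) p.1 ∧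
      Pool.Agent.Results.MP_759431_gt.PolyhedralSmallVertices.Admissible K d (M d) p.2) →
    ∃ V : ℝ, 0 < V ∧ IsGreatest (ringVolumes m ts) V ∧
      ∀ D : Word, RingKnot K M D m ts → Grow D V := by
  obtain ⟨K, hK, hM, -⟩ := Pool.Agent.N566.RX.vol_s
  choose M hM using hM
  refine ⟨⌈K⌉₊, fun d => ⌈M d⌉₊, fun m ts hne hkm hts => ?_⟩
  obtain ⟨d, hts⟩ := hts
  have hl : (toTs ts).length = ts.length := by simp [toTs]
  have hne' : toTs ts ≠ [] := by simpa [toTs] using hne
  have hok := Pool.Agent.Results.MP_759431_gt.PolyhedralSmallVertices.ok_ofV hK hts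
  obtain ⟨V, h1, -, h2⟩ := hM d (toTs ts) m hne' (by rw [hl]; exact hkm) hok
  have h1' : IsGreatest (ringVolumes m ts) V := by
    unfold ringVolumes
    rw [volume_eq, ← hl]
    exact h1
  have hpos : 0 < V := by
    obtain ⟨⟨y, f, g, F, G, h3, h4⟩, _⟩ := h1'
    rw [← h4]
    exact vol_pos' hne h3
  refine ⟨V, hpos, h1', ?_⟩
  have hj : ∀ (m' : ℤ) (ts' : List (Pool.Agent.Results.MP_759431_gt.PolyhedralKnots.Tree ×
      Pool.Agent.Results.MP_759431_gt.PolyhedralKnots.Tree)) (N : ℕ), Odd N →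
      ContinuousAt (jones m' ts' N) (rt N) := by
    intro m' ts' N hN
    have h1 : jones m' ts' N = Pool.Agent.Y481.DR.JD (toTs ts') m' N := by
      funext v
      exact jones_to m' ts' N v
    rw [h1]
    exact Pool.Agent.Y481.DR.cnd' (toTs ts') m' N hN.pos
  rintro D ⟨_, _, _, D₀, hp, hk, hi⟩
  rcases hp with hp | hp
  · refine ⟨D₀, jones m ts, hk, hi, col_ring hp, hj _ _, ?_⟩
    refine h2.congr' ?_
    filter_upwards with N
    rw [jones_to]
    rfl
  · refine ⟨D₀, jones (-(m : ℤ)) (Pool.Agent.Results.MP_759431_gt.PolyhedralKnots.mirror ts), hk,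
      hi, col_ring hp, hj _ _, ?_⟩
    refine h2.congr' ?_
    filter_upwards [eventually_ge_atTop 2] with N hN
    have e : rt N = Pool.Agent.W711.HT.vN N := rfl
    rw [jones_to, e, mirror_ts, Pool.Agent.Y481.DR.mir (toTs ts) m N hN hne' hok.nc]

/-! monotonicity in `K` -/

lemma big_mono {K K' : ℕ} (h : K ≤ K') {b : Bool} {n : ℕ} {a : ℤ}
    (hb : Pool.Agent.TH563.UV.Arb.Tree.Big K' b n a) : Pool.Agent.TH563.UV.Arb.Tree.Big K b n a := by
  rcases hb with hb | hb
  · exact Or.inl hb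
  · refine Or.inr (le_trans ?_ hb)
    exact_mod_cast Nat.pow_le_pow_left h 2

lemma fineBelow_mono {K K' : ℕ} (h : K ≤ K') (t : Pool.Agent.TH563.UV.Arb.Tree) :
    ∀ (g g' : Prop), (g → g') → Pool.Agent.N561.ArbG.FineBelow K' g t →
      Pool.Agent.N561.ArbG.FineBelow K g' t := by
  induction t with
  | single b a => intro g g' _ _; trivial
  | join t c iht ihc =>
    rintro g g' hg ⟨h1, h2, h3⟩
    refine ⟨iht g g' hg h1, ihc _ _ (fun hb => big_mono h hb) h2, ?_⟩
    rcases h3 with h3 | ⟨h3, h4⟩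
    · exact Or.inl (big_mono h h3)
    · exact Or.inr ⟨hg h3, h4⟩

lemma fine_mono {K K' : ℕ} (h : K ≤ K') {t : Pool.Agent.TH563.UV.Arb.Tree}
    (ht : Pool.Agent.N561.ArbG.Fine K' t) : Pool.Agent.N561.ArbG.Fine K t := by
  obtain ⟨h1, h2⟩ := ht
  refine ⟨?_, fineBelow_mono h t _ _ (fun hb => big_mono h hb) h2⟩
  rcases h1 with h1 | h1
  · exact Or.inl (big_mono h h1)
  · exact Or.inr h1

lemma big_mono' {K K' : ℕ} (h : K ≤ K') {b : Bool} {n : ℕ} {a : ℤ}
    (hb : Pool.Agent.Results.MP_759431_gt.PolyhedralKnots.Tree.Big K' b n a) :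
    Pool.Agent.Results.MP_759431_gt.PolyhedralKnots.Tree.Big K b n a := by
  rcases hb with hb | hb
  · exact Or.inl hb
  · refine Or.inr (le_trans ?_ hb)
    exact_mod_cast Nat.pow_le_pow_left h 2

lemma fineBelow_mono' {K K' : ℕ} (h : K ≤ K')
    (t : Pool.Agent.Results.MP_759431_gt.PolyhedralKnots.Tree) :
    ∀ (g g' : Prop), (g → g') →
      Pool.Agent.Results.MP_759431_gt.PolyhedralSmallVertices.FineBelow K' g t →
      Pool.Agent.Results.MP_759431_gt.PolyhedralSmallVertices.FineBelow K g' t := by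
  induction t with
  | single b a => intro g g' _ _; trivial
  | join t c iht ihc =>
    rintro g g' hg ⟨h1, h2, h3⟩
    refine ⟨iht g g' hg h1, ihc _ _ (fun hb => big_mono' h hb) h2, ?_⟩
    rcases h3 with h3 | ⟨h3, h4⟩
    · exact Or.inl (big_mono' h h3)
    · exact Or.inr ⟨hg h3, h4⟩

lemma adm_mono {K K' : ℕ} (h : K ≤ K') {d M : ℕ}
    {t : Pool.Agent.Results.MP_759431_gt.PolyhedralKnots.Tree}
    (ht : Pool.Agent.Results.MP_759431_gt.PolyhedralSmallVertices.Admissible K' d M t) :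
    Pool.Agent.Results.MP_759431_gt.PolyhedralSmallVertices.Admissible K d M t := by
  obtain ⟨h1, h2, h3, h4⟩ := ht
  exact ⟨h1, h2, h3, fineBelow_mono' h t _ _ id h4⟩

/-- the two classes together -/
theorem cls_main : ∃ (K : ℕ) (M : ℕ → ℕ), ∀ (D : Word) (S : Set ℝ), Volumes K M D S →
    ∃ V : ℝ, 0 < V ∧ IsGreatest S V ∧ Grow D V := by
  obtain ⟨K₁, h1⟩ := arb_main
  obtain ⟨K₂, M, h2⟩ := ring_main
  refine ⟨max K₁ K₂, M, ?_⟩
  rintro D S (⟨s, hs, rfl⟩ | ⟨m, ts, hs, rfl⟩)
  · have hs' : ArbKnot K₁ D s :=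
      ⟨hs.1.imp id fun h => fine_mono (le_max_left _ _) h, hs.2⟩
    obtain ⟨V, hV, hg, hD⟩ := h1 s hs'.2.1 hs'.1
    exact ⟨V, hV, hg, hD D hs'⟩
  · have hs' : RingKnot K₂ M D m ts := by
      obtain ⟨a, b, ⟨d, hd⟩, c⟩ := hs
      exact ⟨a, b, ⟨d, fun p hp => ⟨adm_mono (le_max_right _ _) (hd p hp).1,
        adm_mono (le_max_right _ _) (hd p hp).2⟩⟩, c⟩
    obtain ⟨V, hV, hg, hD⟩ := h2 m ts hs'.1 hs'.2.1 hs'.2.2.1
    exact ⟨V, hV, hg, hD D hs'⟩

/-- separation of knots with different volumes, and of all knots of the classes from the unknot -/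
theorem main : ∃ (K : ℕ) (M : ℕ → ℕ),
    (∀ (D : Word) (S : Set ℝ), Volumes K M D S → ∃ V : ℝ, 0 < V ∧ IsGreatest S V) ∧
    (∀ (D E : Word) (S T : Set ℝ) (V W : ℝ), Volumes K M D S → Volumes K M E T →
      IsGreatest S V → IsGreatest T W → V ≠ W → Separated D E) ∧
    ∀ (D : Word) (S : Set ℝ), Volumes K M D S → Separated D circle := by
  obtain ⟨K, M, h⟩ := cls_main
  refine ⟨K, M, fun D S hD => ?_, fun D E S T V W hD hE hV hW hne => ?_, fun D S hD => ?_⟩
  · obtain ⟨V, h1, h2, -⟩ := h D S hD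
    exact ⟨V, h1, h2⟩
  · obtain ⟨V', -, h2, h3⟩ := h D S hD
    obtain ⟨W', -, k2, k3⟩ := h E T hE
    rw [hV.unique h2, hW.unique k2] at hne
    exact separated_of h3 k3 hne
  · obtain ⟨V, h1, -, h3⟩ := h D S hD
    exact separated_of h3 grow_circle h1.ne'

end Pool.Agent.N566.VV
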