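import Pool.Agent.N566.VV.Pos

/-!
# Statements of the numerical parts
-/

set_option autoImplicit false

namespace Pool.Agent.N566.VV

open GapVol (lob)

/-- VV/N1: `8 Λ(π/4) = v_8 = 3.6638…`, `3 Λ(π/3) = v_3 = 1.0149…` -/
def S_N1 : Prop := (9 / 20 : ℝ) ≤ lob (Real.pi / 4) ∧
  (17 / 100 : ℝ) + 21 * lob (Real.pi / 3) ≤ 16 * lob (Real.pi / 4)

/-- VV/N2 -/
def S_N2 : Prop := ∀ x : ℝ, |x| ≤ Real.pi / 8 →
  2 * lob (Real.pi / 4) - 271 / 1000 * x ^ 2 ≤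
    lob (Real.pi / 4 + x / 2) + lob (Real.pi / 4 - x / 2)

end Pool.Agent.N566.VV
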