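import Pool.Agent.N566.VV.Fin
import Pool.Agent.N566.VV.Stm2

/-!
# A lower bound of the volume: an explicit angle structure
-/

set_option autoImplicit false

namespace Pool.Agent.N566.VV.Low

open Pool.Agent.TH563.UV.Arb
open Pool.Agent.TH563.UB.Arb (edges octahedron)
open Pool.Agent.N561.ArbK (Twisted TwistedBelow AllTwisted)

/-- the angles at a vertex with the rotation angles `r.1` of the half twist, `r.2` across -/
noncomputable def ang (r : ℝ × ℝ) : Angles where
  a := Real.pi / 4 + r.2 / 2
  b := Real.pi / 2 + (r.1 - r.2) / 2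
  c := Real.pi / 4 - r.1 / 2
  a' := Real.pi / 4 + r.1 / 2
  b' := Real.pi / 4 - r.2 / 2
  c' := Real.pi / 2 - (r.1 - r.2) / 2

/-- the rotation angles at a vertex with `n` neighbours and weight `w` -/
noncomputable def par (b : Bool) (n : ℕ) (w : ℤ) : ℝ × ℝ :=
  if b then (0, 0) else (-(2 * Real.pi * w) / ((n : ℝ) ^ 2 + (w : ℝ) ^ 2),
    2 * Real.pi * n / ((n : ℝ) ^ 2 + (w : ℝ) ^ 2))

/-- the angle structure -/
noncomputable def mk (r : ℝ × ℝ) : Tree → AngleTree
  | .single b a => .single b a
  | .join t c => .join (mk r t) (mk (par c.circle (c.children + 1) c.weight) c) (ang r)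
      (ang (par c.circle (c.children + 1) c.weight))

lemma mk_tree (r : ℝ × ℝ) (t : Tree) : (mk r t).tree = t := by
  induction t generalizing r with
  | single b a => rfl
  | join t c ht hc => rw [mk, AngleTree.tree, ht, hc]

lemma mk_weight (r : ℝ × ℝ) (t : Tree) : (mk r t).weight = t.weight := by
  induction t generalizing r with
  | single b a => rfl
  | join t c ht hc => rw [mk, AngleTree.weight, ht, Tree.weight]

lemma mk_circle (r : ℝ × ℝ) (t : Tree) : (mk r t).circle = t.circle := by
  induction t generalizing r with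
  | single b a => rfl
  | join t c ht hc => rw [mk, AngleTree.circle, ht, Tree.circle]

lemma mk_edges (r : ℝ × ℝ) (t : Tree) :
    (∀ x ∈ (mk r t).edges, x.1 = ang r ∧ ∃ q, x.2 = ang q) ∧
      (mk r t).edges.length = t.children := by
  induction t generalizing r with
  | single b a => exact ⟨fun x hx => by simp [mk, AngleTree.edges] at hx, rfl⟩
  | join t c ht hc =>
    rw [mk, AngleTree.edges]
    refine ⟨fun x hx => ?_, ?_⟩
    · rcases List.mem_append.1 hx with h | h
      · exact (ht r).1 x h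
      · rw [List.mem_singleton.1 h]
        exact ⟨rfl, _, rfl⟩
    · rw [List.length_append, (ht r).2]
      rfl

/-- small rotation angles -/
def Sm (r : ℝ × ℝ) : Prop := r.1 ^ 2 + r.2 ^ 2 ≤ (Real.pi / 8) ^ 2

lemma sm_abs {r : ℝ × ℝ} (h : Sm r) : |r.1| ≤ Real.pi / 8 ∧ |r.2| ≤ Real.pi / 8 := by
  have hp := Real.pi_pos
  unfold Sm at h
  exact ⟨abs_le_of_sq_le_sq (by nlinarith [sq_nonneg r.2]) (by positivity),
    abs_le_of_sq_le_sq (by nlinarith [sq_nonneg r.1]) (by positivity)⟩

lemma sm_zero : Sm (0, 0) := by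
  unfold Sm
  have hp := sq_nonneg (Real.pi / 8)
  simp only
  linarith [hp]

lemma ang_pos {r : ℝ × ℝ} (h : Sm r) : (ang r).Positive := by
  obtain ⟨h1, h2⟩ := sm_abs h
  have hp := Real.pi_pos
  rw [abs_le] at h1 h2
  unfold Angles.Positive ang
  simp only
  refine ⟨?_, ?_, ?_, ?_, ?_, ?_, ?_, ?_⟩ <;> linarith [h1.1, h1.2, h2.1, h2.2]

lemma par_sm {b : Bool} {n : ℕ} {w : ℤ} (h : Twisted b n w) : Sm (par b n w) := by
  unfold par
  cases b with
  | true =>
    simp only [if_true]
    exact sm_zero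
  | false =>
    simp only [Bool.false_eq_true, if_false]
    have hS : (256 : ℝ) ≤ (n : ℝ) ^ 2 + (w : ℝ) ^ 2 := by
      rcases h with h | h | h
      · exact absurd h (by decide)
      · have h1 : (16 : ℝ) ≤ |(w : ℝ)| := by exact_mod_cast h
        have h2 : (w : ℝ) ^ 2 = |(w : ℝ)| ^ 2 := (sq_abs _).symm
        nlinarith [sq_nonneg (n : ℝ)]
      · have h1 : (32 : ℝ) ≤ n := by exact_mod_cast h
        nlinarith [sq_nonneg (w : ℝ)]
    set S : ℝ := (n : ℝ) ^ 2 + (w : ℝ) ^ 2 with hSd
    have hS0 : 0 < S := by linarith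
    unfold Sm
    simp only
    have e : (-(2 * Real.pi * (w : ℝ)) / S) ^ 2 + (2 * Real.pi * n / S) ^ 2 =
        4 * Real.pi ^ 2 / S := by
      rw [div_pow, div_pow, ← add_div, div_eq_div_iff (by positivity) (by positivity)]
      rw [hSd]
      ring
    rw [e, div_le_iff₀ hS0]
    have hp := Real.pi_pos
    nlinarith [sq_nonneg Real.pi, mul_pos hp hp]

lemma par_sum (n : ℕ) (hn : 1 ≤ n) (w : ℤ) :
    (n : ℝ) * (par false n w).2 = 2 * Real.pi + w * (par false n w).1 := by
  unfold par
  simp only [Bool.false_eq_true, if_false]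
  have hn' : (1 : ℝ) ≤ n := by exact_mod_cast hn
  have hS0 : (0 : ℝ) < (n : ℝ) ^ 2 + (w : ℝ) ^ 2 := by nlinarith [sq_nonneg (w : ℝ)]
  field_simp
  ring

lemma gap_ang {r q r' q' : ℝ × ℝ} (h : r.1 = r'.1) : Gap (ang r, ang q) (ang r', ang q') := by
  unfold Gap ang
  simp only
  linarith

lemma vertex (b : Bool) (w : ℤ) (l : List (Angles × Angles)) (hl : 1 ≤ l.length)
    (h : ∀ x ∈ l, x.1 = ang (par b l.length w) ∧ ∃ q, x.2 = ang q) : VertexCondition b w l := by
  set r := par b l.length w with hr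
  have hg : ∀ x ∈ l, ∀ y ∈ l, Gap x y := by
    intro x hx y hy
    obtain ⟨h1, q, h2⟩ := h x hx
    obtain ⟨h3, q', h4⟩ := h y hy
    obtain ⟨x1, x2⟩ := x
    obtain ⟨y1, y2⟩ := y
    simp only at h1 h2 h3 h4
    subst h1 h2 h3 h4
    exact gap_ang rfl
  refine ⟨?_, fun x hx y hy => by rw [(h x hx).1, (h y hy).1], fun hb x hx => ?_⟩
  · have hmem : ∀ x ∈ l ++ l.take 1, x ∈ l := by
      intro x hx
      rcases List.mem_append.1 hx with h1 | h1
      · exact h1
      · exact List.mem_of_mem_take h1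
    have hp : (l ++ l.take 1).Pairwise Gap :=
      List.pairwise_iff_forall_sublist.2 fun {a b} hab => by
        have ha : a ∈ l ++ l.take 1 := hab.subset (by simp)
        have hb : b ∈ l ++ l.take 1 := hab.subset (by simp)
        exact hg a (hmem a ha) b (hmem b hb)
    exact hp.isChain
  · have hsum : ∀ l' : List (Angles × Angles), (∀ y ∈ l', y.1 = ang r) →
        (l'.map fun y => y.1.across).sum = l'.length * r.2 := by
      intro l'
      induction l' with
      | nil => intro _; simp
      | cons y l' ih =>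
        intro hy
        rw [List.map_cons, List.sum_cons, List.length_cons, ih fun z hz => hy z (by simp [hz]),
          hy y (by simp)]
        push_cast
        unfold Angles.across ang
        simp only
        ring
    rw [hsum l fun y hy => (h y hy).1, (h x hx).1]
    have e : (ang r).halfTwist = r.1 := by
      unfold Angles.halfTwist ang
      simp only
      ring
    rw [e, hr]
    subst hb
    exact par_sum _ hl w

lemma mk_below {r : ℝ × ℝ} (hr : Sm r) (t : Tree) (ht : TwistedBelow t) : Below (mk r t) := by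
  induction t generalizing r with
  | single b a => exact trivial
  | join t c iht ihc =>
    obtain ⟨h1, h2, h3⟩ := ht
    rw [mk]
    set p := par c.circle (c.children + 1) c.weight with hp
    have hps : Sm p := par_sm h3
    refine ⟨iht hr h1, ihc hps h2, ang_pos hr, ang_pos hps, ?_, ?_⟩
    · unfold ang
      simp only
      ring
    · rw [mk_circle, mk_weight]
      have hlen : ((ang p, ang r) :: (mk p c).edges).length = c.children + 1 := by
        rw [List.length_cons, (mk_edges p c).2]
      refine vertex _ _ _ (by rw [hlen]; omega) fun x hx => ?_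
      rw [hlen]
      rcases List.mem_cons.1 hx with h | h
      · rw [h]
        exact ⟨rfl, r, rfl⟩
      · exact (mk_edges p c).1 x h

lemma mk_isAngle (t : Tree) (ht : AllTwisted t) (hc : 1 ≤ t.children) :
    IsAngle (mk (par t.circle t.children t.weight) t) := by
  obtain ⟨h1, h2⟩ := ht
  set p := par t.circle t.children t.weight with hp
  have hps : Sm p := par_sm h2
  refine ⟨mk_below hps t h1, ?_⟩
  rw [mk_circle, mk_weight]
  refine vertex _ _ _ (by rw [(mk_edges p t).2]; exact hc) fun x hx => ?_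
  rw [(mk_edges p t).2]
  exact (mk_edges p t).1 x hx

lemma ang_vol (h2 : S_N2) {r : ℝ × ℝ} (h : Sm r) :
    4 * GapVol.lob (Real.pi / 4) - 21 / 500 ≤ (ang r).vol := by
  obtain ⟨ha, hb⟩ := sm_abs h
  have k1 := h2 r.1 ha
  have k2 := h2 r.2 hb
  have e : GapVol.lob (Real.pi / 2 - (r.1 - r.2) / 2) =
      -GapVol.lob (Real.pi / 2 + (r.1 - r.2) / 2) := by
    have := Pool.Agent.W709.QAT.lob_pi_sub (Real.pi / 2 + (r.1 - r.2) / 2)
    rw [← this]
    congr 1
    ring
  have hv : (ang r).vol = GapVol.lob (Real.pi / 4 + r.2 / 2) +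
      GapVol.lob (Real.pi / 2 + (r.1 - r.2) / 2) + GapVol.lob (Real.pi / 4 - r.1 / 2) +
      (GapVol.lob (Real.pi / 4 + r.1 / 2) + GapVol.lob (Real.pi / 4 - r.2 / 2) +
        GapVol.lob (Real.pi / 2 - (r.1 - r.2) / 2)) := rfl
  rw [hv, e]
  have hp1 := Real.pi_lt_d4
  have hp0 := Real.pi_pos
  unfold Sm at h
  nlinarith [h, mul_pos hp0 hp0]

lemma vol_ge (h2 : S_N2) {r : ℝ × ℝ} (hr : Sm r) (t : Tree) (ht : TwistedBelow t) :
    (2 * octahedron - 21 / 125) * edges t ≤ vol (mk r t) := by
  induction t generalizing r with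
  | single b a =>
    show _ * ((0 : ℕ) : ℝ) ≤ 0
    simp
  | join t c iht ihc =>
    obtain ⟨h1, h3, h4⟩ := ht
    have k1 := iht hr h1
    have k2 := ihc (par_sm h4) h3
    have k3 := ang_vol h2 hr
    have k4 := ang_vol h2 (par_sm h4)
    have e : edges (.join t c) = edges t + edges c + 1 := rfl
    have eo : octahedron = 8 * GapVol.lob (Real.pi / 4) := rfl
    rw [mk, vol, e]
    push_cast
    rw [eo] at k1 k2 ⊢
    nlinarith

theorem vol_low (h2 : S_N2) (s : Tree) (hs : AllTwisted s) (hc : 1 ≤ s.children) {V : ℝ}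
    (hV : IsGreatest (arbVolumes s) V) : (2 * octahedron - 21 / 125) * edges s ≤ V :=
  (vol_ge h2 (par_sm hs.2) s hs.1).trans
    (hV.2 ⟨_, mk_tree _ _, mk_isAngle s hs hc, rfl⟩)

end Pool.Agent.N566.VV.Low
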