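import Pool.Agent.N566.VV.Fin3
import Pool.Agent.N518.UB.Uni
import Pool.Agent.N767.VV.N1
import Pool.Agent.N390.VV.N2

/-!
# Separation from knots of smaller complexity: the definitions and the theorem
-/

set_option autoImplicit false

namespace Pool.Agent.N566.VV

open Pool.Agent.H835R2.Knot
open Finset Filter Topology
open Pool.Agent.Results.MP_759431_gt.TwistRegionBound (regions rate v3 v8)
open Pool.Agent.TH563.UV.Arb (Tree)
open Pool.Agent.TH563.UB.Arb (edges octahedron Heavy)
open Pool.Agent.N561.ArbK (AllTwisted)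

/-- The number of edges of a tree. -/
def treeEdges : Pool.Agent.Results.MP_759431_gt.PolyhedralKnots.Tree → ℕ
  | .single _ _ => 0
  | .join t c => treeEdges t + treeEdges c + 1

/-- The number of edges of all trees of a ring. -/
def ringEdges (ts : List (Pool.Agent.Results.MP_759431_gt.PolyhedralKnots.Tree ×
    Pool.Agent.Results.MP_759431_gt.PolyhedralKnots.Tree)) : ℕ :=
  (ts.map fun p => treeEdges p.1 + treeEdges p.2).sum

/-- `E` is a diagram of the knot which is the closure of `(s_1 s_2 s_1)^{2 m} T_1 U_1 ⋯ T_k U_k`, with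
the tangles of `2 k ≥ 2` weighted trees, `m` an integer, `(k, m) ≠ (1, 0)` (with any orientation).
The trees are arbitrary; for instance, trees with one vertex give the closed 3-braids
`(s_1 s_2 s_1)^{2 m} s_1^{a_1} s_2^{b_1} ⋯ s_1^{a_k} s_2^{b_k}`. -/
def RingDiagram (m : ℤ) (ts : List (Pool.Agent.Results.MP_759431_gt.PolyhedralKnots.Tree ×
    Pool.Agent.Results.MP_759431_gt.PolyhedralKnots.Tree)) (E : Word) : Prop :=
  ts ≠ [] ∧ ¬ (ts.length = 1 ∧ m = 0) ∧
    ∃ E₀ : Word, E₀.map plain = ringW m (ringTrs ts) ∧ IsKnot E₀ ∧ Isotopic E₀ E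

/-! ### the proofs -/

/-- conversion of trees -/
def toL : Pool.Agent.Results.MP_759431_gt.PolyhedralKnots.Tree →
    Pool.Agent.Results.MP_bdeb5b_gt.PolyhedralLinks.Tree
  | .single b a => .single b a
  | .join t c => .join (toL t) (toL c)

/-- conversion of rings -/
def toLs (ts : List (Pool.Agent.Results.MP_759431_gt.PolyhedralKnots.Tree ×
    Pool.Agent.Results.MP_759431_gt.PolyhedralKnots.Tree)) :
    List (Pool.Agent.Results.MP_bdeb5b_gt.PolyhedralLinks.Tree ×
      Pool.Agent.Results.MP_bdeb5b_gt.PolyhedralLinks.Tree) := ts.map fun p => (toL p.1, toL p.2)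

lemma toL_tb (t : Pool.Agent.Results.MP_759431_gt.PolyhedralKnots.Tree) :
    Pool.Agent.Results.MP_bdeb5b_gt.PolyhedralLinks.toTb (toL t) =
      Pool.Agent.Results.MP_759431_gt.PolyhedralKnots.toTb t := by
  induction t with
  | single b a => rfl
  | join t c ht hc =>
    show Pool.Agent.TH563.UV.Tb.br _ _ = Pool.Agent.TH563.UV.Tb.br _ _
    rw [ht, hc]

lemma toLs_ts (ts : List (Pool.Agent.Results.MP_759431_gt.PolyhedralKnots.Tree ×
    Pool.Agent.Results.MP_759431_gt.PolyhedralKnots.Tree)) :
    Pool.Agent.Results.MP_bdeb5b_gt.PolyhedralLinks.toTs (toLs ts) =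
      Pool.Agent.Results.MP_759431_gt.PolyhedralKnots.toTs ts := by
  unfold Pool.Agent.Results.MP_bdeb5b_gt.PolyhedralLinks.toTs
    Pool.Agent.Results.MP_759431_gt.PolyhedralKnots.toTs toLs
  rw [List.map_map]
  refine List.map_congr_left fun p _ => ?_
  simp only [Function.comp, toL_tb]

lemma toL_edges (t : Pool.Agent.Results.MP_759431_gt.PolyhedralKnots.Tree) :
    Pool.Agent.N518.UB.Rg.treeEdges (toL t) = treeEdges t := by
  induction t with
  | single b a => rfl
  | join t c ht hc =>
    show Pool.Agent.N518.UB.Rg.treeEdges (toL t) + Pool.Agent.N518.UB.Rg.treeEdges (toL c) + 1 =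
      treeEdges t + treeEdges c + 1
    rw [ht, hc]

lemma toLs_edges (ts : List (Pool.Agent.Results.MP_759431_gt.PolyhedralKnots.Tree ×
    Pool.Agent.Results.MP_759431_gt.PolyhedralKnots.Tree)) :
    Pool.Agent.N518.UB.Rg.edges (toLs ts) = ringEdges ts := by
  unfold Pool.Agent.N518.UB.Rg.edges ringEdges toLs
  rw [List.map_map]
  congr 1
  refine List.map_congr_left fun p _ => ?_
  simp only [Function.comp, toL_edges]

lemma growthLe_ring (m : ℤ) (ts : List (Pool.Agent.Results.MP_759431_gt.PolyhedralKnots.Tree ×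
    Pool.Agent.Results.MP_759431_gt.PolyhedralKnots.Tree)) (hne : ts ≠ [])
    (hkm : ¬ (ts.length = 1 ∧ m = 0)) :
    Pool.Agent.N518.UB.Rg.GrowthLe (2 * octahedron * (2 * ts.length + ringEdges ts)) m (toLs ts) := by
  obtain ⟨K, V, h⟩ := Pool.Agent.N518.UB.Rg.uni'
  have hk : 1 ≤ ts.length := List.length_pos_iff.2 hne
  have hl : (toLs ts).length = ts.length := by
    unfold toLs
    rw [List.length_map]
  obtain ⟨h1, h2, -, -⟩ := h ts.length m.natAbs hk (by omega)
  obtain ⟨-, h3, h4⟩ := h2 (toLs ts) hl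
  rw [toLs_edges] at h3 h4
  have hle : V ts.length m.natAbs + 2 * Pool.Agent.N518.UB.Rg.octahedron * ringEdges ts ≤
      2 * octahedron * (2 * ts.length + ringEdges ts) := by
    have e : Pool.Agent.N518.UB.Rg.octahedron = octahedron := rfl
    rw [e] at h1 ⊢
    linarith
  have hg : Pool.Agent.N518.UB.Rg.GrowthLe
      (V ts.length m.natAbs + 2 * Pool.Agent.N518.UB.Rg.octahedron * ringEdges ts) m (toLs ts) := by
    have hma := Int.natAbs_eq m
    clear hle h1
    generalize m.natAbs = n at h3 h4 hma ⊢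
    rcases hma with hm | hm
    · rw [hm]
      exact h3
    · rw [hm]
      exact h4
  intro e f ε hε
  filter_upwards [hg e f ε hε] with N hN
  refine hN.trans (Real.exp_le_exp.2 ?_)
  have hp := Real.pi_pos
  gcongr

lemma growLe_ring {E : Word} {m : ℤ} {ts : List (Pool.Agent.Results.MP_759431_gt.PolyhedralKnots.Tree ×
    Pool.Agent.Results.MP_759431_gt.PolyhedralKnots.Tree)} (h : RingDiagram m ts E) :
    GrowLe E (2 * octahedron * (2 * ts.length + ringEdges ts)) := by
  obtain ⟨hne, hkm, E₀, hp, hk, hi⟩ := h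
  refine ⟨E₀, Pool.Agent.Results.MP_759431_gt.PolyhedralKnots.jones m ts, hk, hi, col_ring hp,
    fun N hN => ?_, fun ε hε => ?_⟩
  · have h1 : Pool.Agent.Results.MP_759431_gt.PolyhedralKnots.jones m ts N =
        Pool.Agent.Y481.DR.JD (Pool.Agent.Results.MP_759431_gt.PolyhedralKnots.toTs ts) m N := by
      funext v
      exact Pool.Agent.Results.MP_759431_gt.PolyhedralKnots.jones_to m ts N v
    rw [h1]
    exact Pool.Agent.Y481.DR.cnd' (Pool.Agent.Results.MP_759431_gt.PolyhedralKnots.toTs ts) m N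
      hN.pos
  · have hpi := Real.pi_pos
    have hoct := oct_pos
    filter_upwards [growthLe_ring m ts hne hkm 0 0 (ε / (2 * Real.pi)) (by positivity),
      eventually_ge_atTop 1] with N hN hN1
    have hkash : ‖Pool.Agent.Results.MP_bdeb5b_gt.PolyhedralLinks.kashaev 0 0 m (toLs ts) N‖ =
        ‖Pool.Agent.Results.MP_759431_gt.PolyhedralKnots.jones m ts N (rt N)‖ := by
      unfold Pool.Agent.Results.MP_bdeb5b_gt.PolyhedralLinks.kashaev
      rw [zero_mul, zero_mul, zpow_zero, zpow_zero, one_mul, one_mul,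
        Pool.Agent.Results.MP_bdeb5b_gt.PolyhedralLinks.jones_to, toLs_ts,
        Pool.Agent.Results.MP_759431_gt.PolyhedralKnots.jones_to]
      rfl
    rw [hkash] at hN
    have hNr : (0 : ℝ) < N := by exact_mod_cast hN1
    set U : ℝ := 2 * octahedron * (2 * ts.length + ringEdges ts) with hU
    have hU0 : 0 ≤ U := by positivity
    set J := Pool.Agent.Results.MP_759431_gt.PolyhedralKnots.jones m ts N (rt N) with hJ
    have hl : Real.log ‖J‖ ≤ (U / (2 * Real.pi) + ε / (2 * Real.pi)) * N := by
      rcases (norm_nonneg J).eq_or_lt with h0 | h0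
      · rw [← h0, Real.log_zero]
        positivity
      · calc Real.log ‖J‖ ≤ Real.log (Real.exp _) := Real.log_le_log h0 hN
          _ = _ := Real.log_exp _
    calc 2 * Real.pi * (Real.log ‖J‖ / N)
        ≤ 2 * Real.pi * ((U / (2 * Real.pi) + ε / (2 * Real.pi)) * N / N) := by
          gcongr
      _ = U + ε := by
          field_simp

/-- the volume as a bound of the complexity -/
theorem main2r : ∃ (K : ℕ) (M : ℕ → ℕ), ∀ (D : Word) (S : Set ℝ) (V : ℝ), Volumes K M D S →
    IsGreatest S V →
    (∀ T E, TwistDiagram T E → ((regions T).map rate).sum < V → Separated D E) ∧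
    (∀ t E, ArbDiagram t E → 2 * octahedron * edges t < V → Separated D E) ∧
    ∀ m ts E, RingDiagram m ts E → 2 * octahedron * (2 * ts.length + ringEdges ts) < V →
      Separated D E := by
  obtain ⟨K, M, h⟩ := cls_main
  refine ⟨K, M, fun D S V hD hV => ?_⟩
  obtain ⟨V', -, h2, h3⟩ := h D S hD
  rw [← hV.unique h2] at h3
  exact ⟨fun T E hE hlt => separated_lt h3 (growLe_twist f_open f_sch3 hE) hlt,
    fun t E hE hlt => separated_lt h3 (growLe_arb hE) hlt,
    fun m ts E hE hlt => separated_lt h3 (growLe_ring hE) hlt⟩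

/-- explicit constants -/
theorem main4r (s : Tree) (D : Word) (hs : AllTwisted s) (hc : 1 ≤ s.children)
    (hD : ArbDiagram s D) :
    (∀ T E, TwistDiagram T E → 10 * (regions T).length ≤ 7 * edges s → Separated D E) ∧
    (∀ t E, ArbDiagram t E → 42 * edges t ≤ 41 * edges s → Separated D E) ∧
    ∀ m ts E, RingDiagram m ts E → 42 * (2 * ts.length + ringEdges ts) ≤ 41 * edges s →
      Separated D E := by
  obtain ⟨V, -, hV, hg⟩ := grow_low Pool.Agent.N390.VV.s_n2 hs hc
  have hm : 1 ≤ edges s := by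
    cases s with
    | single b a => exact absurd hc (by show ¬ 1 ≤ 0; omega)
    | join t c =>
      show 1 ≤ edges t + edges c + 1
      omega
  have hm' : (1 : ℝ) ≤ edges s := by exact_mod_cast hm
  have eo : octahedron = 8 * GapVol.lob (Real.pi / 4) := rfl
  have ev : v3 = 3 * GapVol.lob (Real.pi / 3) := rfl
  obtain ⟨n1, n2⟩ := Pool.Agent.N767.VV.s_n1
  have key : ∀ c : ℕ, 42 * c ≤ 41 * edges s →
      2 * octahedron * c < (2 * octahedron - 21 / 125) * edges s := by
    intro c hc'
    have h3 : (42 : ℝ) * c ≤ 41 * edges s := by exact_mod_cast hc'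
    rw [eo]
    have k1 := mul_le_mul_of_nonneg_left h3 (by linarith : 0 ≤ GapVol.lob (Real.pi / 4))
    have k2 := mul_nonneg (sub_nonneg.2 n1) (by linarith : (0 : ℝ) ≤ edges s)
    linarith
  refine ⟨fun T E hE hlt => separated_lt (hg D hD) (growLe_twist f_open f_sch3 hE) ?_,
    fun t E hE hlt => separated_lt (hg D hD) (growLe_arb hE) ((key _ hlt).trans_le hV),
    fun m ts E hE hlt => separated_lt (hg D hD) (growLe_ring hE) ?_⟩
  · have h3 : (10 : ℝ) * (regions T).length ≤ 7 * edges s := by exact_mod_cast hlt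
    refine (rate_sum_le (regions T)).trans_lt (lt_of_lt_of_le ?_ hV)
    rw [eo, ev]
    have h4 : 0 < GapVol.lob (Real.pi / 3) := by
      have := v3_pos
      rw [ev] at this
      linarith
    have k1 := mul_le_mul_of_nonneg_left h3 h4.le
    have k2 := mul_nonneg (sub_nonneg.2 n2) (by linarith : (0 : ℝ) ≤ edges s)
    linarith
  · have h := key _ hlt
    push_cast at h
    exact h.trans_le hV

/-- heavy trees -/
theorem main3r : ∀ m : ℕ, 1 ≤ m → ∃ M : ℕ, ∀ (s : Tree) (D : Word), edges s = m → Heavy M s →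
    ArbDiagram s D →
    (∀ T E, TwistDiagram T E → 10 * v3 * (regions T).length < 2 * v8 * m → Separated D E) ∧
    (∀ t E, ArbDiagram t E → edges t < m → Separated D E) ∧
    ∀ n ts E, RingDiagram n ts E → 2 * ts.length + ringEdges ts < m → Separated D E := by
  intro m hm
  obtain ⟨ε, hε, h1, h2⟩ := exists_eps m hm
  obtain ⟨M, hM⟩ := grow_heavy ε hε
  refine ⟨M, fun s D hs hh hD => ?_⟩
  have hc : 1 ≤ s.children := by
    cases s with
    | single b a =>
      exact absurd hs (by show (0 : ℕ) ≠ m; omega)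
    | join t c =>
      show 1 ≤ t.children + 1
      omega
  obtain ⟨V, hV, hg⟩ := hM s hc hh
  have ho := oct_pos
  rw [hs] at hV
  have key : ∀ c : ℕ, c < m → 2 * octahedron * c < V := by
    intro c hcm
    have h3 : (c : ℝ) ≤ m - 1 := by
      have : c + 1 ≤ m := hcm
      have h4 : ((c + 1 : ℕ) : ℝ) ≤ m := by exact_mod_cast this
      push_cast at h4
      linarith
    have h4 : 2 * octahedron * (c : ℝ) ≤ 2 * octahedron * (m - 1) := by gcongr
    nlinarith
  refine ⟨fun T E hE hlt => separated_lt (hg D hD) (growLe_twist f_open f_sch3 hE) ?_,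
    fun t E hE hlt => separated_lt (hg D hD) (growLe_arb hE) (key _ hlt),
    fun n ts E hE hlt => separated_lt (hg D hD) (growLe_ring hE) ?_⟩
  · have hv : v8 = octahedron := rfl
    rw [hv] at hlt
    exact (rate_sum_le (regions T)).trans_lt ((h2 _ hlt).trans_le hV)
  · have h := key _ hlt
    push_cast at h
    exact h

end Pool.Agent.N566.VV
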